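import Pool.Agent.H490Z.PA.Walk

set_option autoImplicit false

open Set

namespace Pool.Agent.H490Z.PA

lemma lip_walk {w : ℕ → ℤ} {m : ℕ} (hs : ∀ k < m, |w (k + 1) - w k| ≤ 1) :
    ∀ e k, k + e ≤ m → |w (k + e) - w k| ≤ e := by
  intro e
  induction e with
  | zero => intro k _; simp
  | succ e ih =>
    intro k hk
    have h1 := ih k (by omega)
    have h2 := hs (k + e) (by omega)
    rw [show k + (e + 1) = k + e + 1 by ring]
    rw [abs_le] at *
    push_cast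
    omega

lemma lip_walk2 {w : ℕ → ℤ} {m : ℕ} (hs : ∀ k < m, |w (k + 1) - w k| ≤ 1) {k l : ℕ}
    (hk : k ≤ m) (hl : l ≤ m) (h1 : k ≤ l + 2) (h2 : l ≤ k + 2) : |w k - w l| ≤ 2 := by
  rcases le_total k l with h | h
  · obtain ⟨e, rfl⟩ : ∃ e, l = k + e := ⟨l - k, by omega⟩
    have := lip_walk hs e k hl
    rw [abs_le] at *
    omega
  · obtain ⟨e, rfl⟩ : ∃ e, k = l + e := ⟨k - l, by omega⟩
    have := lip_walk hs e l hk
    rw [abs_le] at *
    omega

lemma dlift {X : Type} [TopologicalSpace X] [CompactSpace X] [T2Space X] [ConnectedSpace X]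
    (hX : HI X) {w : ℕ → ℤ} {m : ℕ} {n : ℤ} (hn : 1 ≤ n) (hs : ∀ k < m, |w (k + 1) - w k| ≤ 1)
    (h0 : w 0 = 0) (hr : ∀ k ≤ m, 0 ≤ w k ∧ w k ≤ n) {k0 : ℕ} (hk0 : k0 ≤ m) (hk0' : w k0 = n)
    {f : X → ℝ} (hf : Continuous f) (hfr : ∀ x, 0 ≤ f x ∧ f x ≤ n) {p r : X} (hp : f p = 0)
    (hrr : f r = n) :
    ∃ g : X → ℝ, Continuous g ∧ (∀ x, 0 ≤ g x ∧ g x ≤ m) ∧ g p = 0 ∧ (∃ r', g r' = m) ∧
      ∀ x, ∀ k ≤ m, |g x - k| ≤ 1 / 2 → |(w k : ℝ) - f x| ≤ 4 := by
  obtain ⟨c, rfl⟩ : ∃ c, m = k0 + c := ⟨m - k0, by omega⟩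
  have hk0p : 0 < k0 := by
    rcases Nat.eq_zero_or_pos k0 with h | h
    · subst h; omega
    · exact h
  let κ : ℕ → ℕ := fun j => if j ≤ k0 + c then j else 2 * (k0 + c) - j
  let u : ℕ → ℤ := fun j => w (κ j)
  have hκ : ∀ j, κ j ≤ k0 + c := fun j => by simp only [κ]; split_ifs <;> omega
  have hus : ∀ j < k0 + 2 * c, |u (j + 1) - u j| ≤ 1 := by
    intro j hj
    by_cases h : j + 1 ≤ k0 + c
    · have e1 : κ (j + 1) = j + 1 := if_pos h
      have e2 : κ j = j := if_pos (by omega)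
      simp only [u, e1, e2]
      exact hs j (by omega)
    · have e1 : κ j = κ (j + 1) + 1 := by simp only [κ]; split_ifs <;> omega
      have e2 : κ (j + 1) < k0 + c := by have := hκ j; omega
      simp only [u, e1]
      rw [abs_sub_comm]
      exact hs _ e2
  have hur : ∀ j, 0 ≤ u j ∧ u j ≤ n := fun j => hr _ (hκ j)
  let v : ℕ → ℤ := fun j => if j % 2 = 0 then 2 * u (j / 2) else
    if u (j / 2 + 1) = u (j / 2) then (if u (j / 2) < n then 2 * u (j / 2) + 1 else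
      2 * u (j / 2) - 1) else u (j / 2) + u (j / 2 + 1)
  have hve : ∀ j, v (2 * j) = 2 * u j := fun j => by simp [v]
  have hvo : ∀ j, v (2 * j + 1) = if u (j + 1) = u j then (if u j < n then 2 * u j + 1 else
      2 * u j - 1) else u j + u (j + 1) := fun j => by
    have e1 : (2 * j + 1) % 2 = 1 := by omega
    have e2 : (2 * j + 1) / 2 = j := by omega
    simp [v, e1, e2]
  have hvo2 : ∀ j < k0 + 2 * c, (v (2 * j + 1) = 2 * u j + 1 ∨ v (2 * j + 1) = 2 * u j - 1) ∧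
      (2 * u (j + 1) = v (2 * j + 1) + 1 ∨ 2 * u (j + 1) = v (2 * j + 1) - 1) ∧
      0 ≤ v (2 * j + 1) ∧ v (2 * j + 1) ≤ 2 * n := by
    intro j hj
    have t1 := hus j hj
    have t2 := hur j
    have t3 := hur (j + 1)
    rw [abs_le] at t1
    rw [hvo]
    split_ifs <;> omega
  have hv : IsWalk v (2 * (k0 + 2 * c)) (2 * n) := by
    refine ⟨fun k hk => ?_, ?_, ?_, fun k hk => ?_⟩
    · rcases Nat.even_or_odd' k with ⟨j, rfl | rfl⟩
      · rw [hve]; exact (hvo2 j (by omega)).1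
      · rw [show 2 * j + 1 + 1 = 2 * (j + 1) by ring, hve]; exact (hvo2 j (by omega)).2.1
    · have := hve 0
      simp only [mul_zero] at this
      rw [this]
      simp [u, κ, h0]
    · rw [hve]
      have : κ (k0 + 2 * c) = k0 := by simp only [κ]; split_ifs <;> omega
      simp only [u, this, hk0']
    · rcases Nat.even_or_odd' k with ⟨j, rfl | rfl⟩
      · rw [hve]; have := hur j; omega
      · exact (hvo2 j (by omega)).2.2
  obtain ⟨h, g1, g2, g3, g4, g5⟩ := walk_lift hX _ v _ hv (fun x => 2 * f x) (by fun_prop)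
    (fun x => by have := hfr x; push_cast; constructor <;> linarith) p r (by simp [hp])
    (by simp [hrr]) 1 one_pos
  have hc : (0 : ℝ) ≤ c := Nat.cast_nonneg c
  have hk : (0 : ℝ) ≤ k0 := Nat.cast_nonneg k0
  refine ⟨fun x => ((k0 + c : ℕ) : ℝ) - |((k0 + c : ℕ) : ℝ) - h x / 2|, by fun_prop, fun x => ?_,
    ?_, ?_, fun x k hk1 hk2 => ?_⟩
  · obtain ⟨t1, t2⟩ := g2 x
    push_cast at t2 ⊢
    refine ⟨?_, by linarith [abs_nonneg ((k0 : ℝ) + c - h x / 2)]⟩
    rw [sub_nonneg, abs_le]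
    constructor <;> linarith
  · simp only [g3]
    rw [zero_div, sub_zero, abs_of_nonneg (Nat.cast_nonneg _), sub_self]
  · obtain ⟨r', hr'⟩ := intermediate_value_univ p r g1
      (show 2 * ((k0 : ℝ) + c) ∈ Icc (h p) (h r) by
        rw [g3, g4]; push_cast; constructor <;> linarith)
    refine ⟨r', ?_⟩
    simp only [hr']
    push_cast
    simp
  · obtain ⟨j, j1, j2, j3⟩ := exists_cell (by omega) (g2 x).1 (g2 x).2
    have t1 := g5 x
    rw [WW_eq v j1 j2 j3] at t1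
    have t2 : |(v (j + 1) : ℝ) - v j| ≤ 1 := by
      rcases hv.step j j1 with e | e <;> rw [e] <;> simp
    have t3 : |(h x - j) * ((v (j + 1) : ℝ) - v j)| ≤ 1 := by
      rw [abs_mul, abs_of_nonneg (by linarith : 0 ≤ h x - j)]
      nlinarith [abs_nonneg ((v (j + 1) : ℝ) - v j)]
    obtain ⟨i, hi1, hi2, hi3⟩ : ∃ i : ℕ, (i : ℝ) ≤ h x / 2 ∧ h x / 2 ≤ i + 1 ∧
        |v j - 2 * u i| ≤ 1 := by
      rcases Nat.even_or_odd' j with ⟨i, rfl | rfl⟩
      · push_cast at j2 j3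
        exact ⟨i, by linarith, by linarith, by rw [hve]; simp⟩
      · push_cast at j2 j3
        refine ⟨i, by linarith, by linarith, ?_⟩
        have := (hvo2 i (by omega)).1
        rw [abs_le]
        omega
    have t4 : |(κ i : ℝ) - (((k0 + c : ℕ) : ℝ) - |((k0 + c : ℕ) : ℝ) - h x / 2|)| ≤ 1 := by
      have hx2 := (g2 x).2
      by_cases hh : i ≤ k0 + c
      · have e : κ i = i := if_pos hh
        have hhR : (i : ℝ) ≤ (k0 + c : ℕ) := by exact_mod_cast hh
        rw [e, abs_le]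
        constructor <;> cases abs_cases (((k0 + c : ℕ) : ℝ) - h x / 2) <;> linarith
      · have e : κ i + i = 2 * (k0 + c) := by
          have : (i : ℝ) ≤ (k0 + 2 * c : ℕ) := by push_cast at hx2 ⊢; linarith
          have : i ≤ k0 + 2 * c := by exact_mod_cast this
          simp only [κ]; split_ifs; omega
        have eR : (κ i : ℝ) + i = 2 * ((k0 + c : ℕ) : ℝ) := by exact_mod_cast e
        have hhR : ((k0 + c : ℕ) : ℝ) ≤ i := by exact_mod_cast (show k0 + c ≤ i by omega)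
        rw [abs_le]
        constructor <;> cases abs_cases (((k0 + c : ℕ) : ℝ) - h x / 2) <;> linarith
    rw [abs_le] at t4 hk2
    have t5 : k ≤ κ i + 2 := by
      have : (k : ℝ) ≤ κ i + 2 := by linarith [t4.1, t4.2, hk2.1, hk2.2]
      exact_mod_cast this
    have t6 : κ i ≤ k + 2 := by
      have : (κ i : ℝ) ≤ k + 2 := by linarith [t4.1, t4.2, hk2.1, hk2.2]
      exact_mod_cast this
    have t7 : |(w k : ℝ) - u i| ≤ 2 := by exact_mod_cast lip_walk2 hs hk1 (hκ i) t5 t6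
    have t8 : |(v j : ℝ) - 2 * u i| ≤ 1 := by exact_mod_cast hi3
    rw [abs_le] at *
    constructor <;> linarith [t1.1, t1.2, t3.1, t3.2, t7.1, t7.2, t8.1, t8.2]

/-- a map onto `[0, 1]` sending the base point to `0` -/
structure Good {X : Type} [TopologicalSpace X] (p : X) (f : X → ℝ) : Prop where
  cont : Continuous f
  range : ∀ x, 0 ≤ f x ∧ f x ≤ 1
  base : f p = 0
  top : ∃ r, f r = 1

/-- `p` is an end point of the chainable continuum `X` -/
def IsEnd {X : Type} [MetricSpace X] (p : X) : Prop :=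
  ∀ ε > 0, ∃ e : X → ℝ, Good p e ∧ ∀ x y, e x = e y → dist x y < ε

lemma thin {X : Type} [MetricSpace X] [CompactSpace X] {e : X → ℝ} (he : Continuous e) {ε : ℝ}
    (h : ∀ x y, e x = e y → dist x y < ε) :
    ∃ η > 0, ∀ x y, |e x - e y| ≤ η → dist x y < ε := by
  have hK : IsCompact {z : X × X | ε ≤ dist z.1 z.2} :=
    (isClosed_le continuous_const (by fun_prop)).isCompact
  rcases {z : X × X | ε ≤ dist z.1 z.2}.eq_empty_or_nonempty with h0 | h0
  · refine ⟨1, one_pos, fun x y _ => ?_⟩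
    by_contra hc
    have : (x, y) ∈ {z : X × X | ε ≤ dist z.1 z.2} := not_lt.1 hc
    rw [h0] at this
    exact this
  · obtain ⟨z, hz, hmin⟩ := hK.exists_isMinOn h0
      (show Continuous fun z : X × X => |e z.1 - e z.2| by fun_prop).continuousOn
    have hpos : 0 < |e z.1 - e z.2| := by
      rw [abs_pos, sub_ne_zero]
      exact fun hh => absurd (h _ _ hh) (not_lt.2 hz)
    refine ⟨|e z.1 - e z.2| / 2, by linarith, fun x y hxy => ?_⟩
    by_contra hc
    have : |e z.1 - e z.2| ≤ |e x - e y| := hmin (show (x, y) ∈ _ from not_lt.1 hc)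
    linarith

variable {X Y : Type} [MetricSpace X] [CompactSpace X] [ConnectedSpace X]
  [MetricSpace Y] [CompactSpace Y] [ConnectedSpace Y]

omit [CompactSpace X] in
lemma Good.surj {p : X} {f : X → ℝ} (h : Good p f) {t : ℝ} (h0 : 0 ≤ t) (h1 : t ≤ 1) :
    ∃ x, f x = t := by
  obtain ⟨r, hr⟩ := h.top
  exact intermediate_value_univ p r h.cont (by rw [h.base, hr]; exact ⟨h0, h1⟩)

lemma step {p : X} {q : Y} (hp : IsEnd p) (hY : HI Y) {f : X → ℝ} {g : Y → ℝ} (hf : Good p f)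
    (hg : Good q g) {τ ε : ℝ} (hτ : 0 < τ) (hε : 0 < ε) :
    ∃ (f' : X → ℝ) (g' : Y → ℝ) (τ' : ℝ), Good p f' ∧ Good q g' ∧ 0 < τ' ∧
      (∀ x y, |f' x - g' y| ≤ τ' → |f x - g y| ≤ τ) ∧
      ∀ x x' y, |f' x - g' y| ≤ τ' → |f' x' - g' y| ≤ τ' → dist x x' < ε := by
  obtain ⟨n, hn⟩ := exists_nat_gt (5 / τ)
  have hn0 : (0 : ℝ) < n := lt_trans (by positivity) hn
  have hn1 : (1 : ℤ) ≤ n := by
    have : 0 < n := by exact_mod_cast hn0
    omega
  have hu := CompactSpace.uniformContinuous_of_continuous hf.cont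
  rw [Metric.uniformContinuous_iff] at hu
  obtain ⟨δ, hδ, hδ2⟩ := hu (1 / (4 * n)) (by positivity)
  obtain ⟨e, he, he2⟩ := hp (min δ ε) (lt_min hδ hε)
  obtain ⟨η, hη, hη2⟩ := thin he.cont he2
  obtain ⟨m, hm⟩ := exists_nat_gt (1 / η)
  have hm0 : (0 : ℝ) < m := lt_trans (by positivity) hm
  have hmη : 1 / (m : ℝ) ≤ η := by
    rw [div_le_iff₀ hm0]
    rw [div_lt_iff₀ hη] at hm
    linarith
  have key : ∀ x y, |e x - e y| ≤ 1 / (m : ℝ) → |n * f x - n * f y| ≤ 1 / 4 := by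
    intro x y hxy
    have := hδ2 (lt_of_lt_of_le (hη2 x y (hxy.trans hmη)) (min_le_left _ _))
    rw [Real.dist_eq] at this
    rw [← mul_sub, abs_mul, abs_of_pos hn0]
    calc (n : ℝ) * |f x - f y| ≤ n * (1 / (4 * n)) := by gcongr
      _ = 1 / 4 := by field_simp
  have hx : ∀ k : ℕ, ∃ x, k ≤ m → e x = k / m := by
    intro k
    by_cases hk : k ≤ m
    · obtain ⟨x, hx⟩ := he.surj (t := k / m) (by positivity)
        ((div_le_one hm0).2 (by exact_mod_cast hk))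
      exact ⟨x, fun _ => hx⟩
    · exact ⟨p, fun h => absurd h hk⟩
  choose xs hxs using hx
  let w : ℕ → ℤ := fun k => round (n * f (xs k))
  have hw : ∀ k, |n * f (xs k) - w k| ≤ 1 / 2 := fun k => abs_sub_round _
  have hm1 : 0 < 1 / (m : ℝ) := by positivity
  obtain ⟨r, hr⟩ := hf.top
  obtain ⟨r2, hr2⟩ := hg.top
  have hk0 : ⌊m * e r⌋₊ ≤ m := by
    apply Nat.floor_le_of_le
    nlinarith [(he.range r).2]
  have hwr : ∀ k, 0 ≤ w k ∧ w k ≤ n := by
    intro k
    have t := hw k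
    obtain ⟨t1, t2⟩ := hf.range (xs k)
    rw [abs_le] at t
    have a1 : (-1 : ℝ) < w k := by nlinarith [t.1, t.2]
    have a2 : (w k : ℝ) < n + 1 := by nlinarith [t.1, t.2]
    have a3 : (-1 : ℤ) < w k := by exact_mod_cast a1
    have a4 : w k < (n : ℤ) + 1 := by exact_mod_cast a2
    omega
  obtain ⟨h, g1, g2, g3, ⟨r', g4⟩, g5⟩ := dlift hY (w := w) (m := m) hn1 (by
      intro k hk
      have t := key (xs (k + 1)) (xs k) (by
        rw [hxs _ hk, hxs _ hk.le]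
        push_cast
        rw [← sub_div, add_sub_cancel_left, abs_of_pos hm1])
      have t1 := hw k
      have t2 := hw (k + 1)
      rw [abs_le] at t t1 t2
      have a1 : (w (k + 1) : ℝ) - w k < 2 := by linarith [t.1, t.2, t1.1, t1.2, t2.1, t2.2]
      have a2 : (-2 : ℝ) < (w (k + 1) : ℝ) - w k := by
        linarith [t.1, t.2, t1.1, t1.2, t2.1, t2.2]
      have a3 : w (k + 1) - w k < 2 := by exact_mod_cast a1
      have a4 : -2 < w (k + 1) - w k := by exact_mod_cast a2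
      rw [abs_le]
      omega) (by
      have t := key (xs 0) p (by rw [hxs 0 (by omega), he.base]; simp)
      have t1 := hw 0
      rw [hf.base, abs_le] at t
      rw [abs_le] at t1
      have a1 : (w 0 : ℝ) < 1 := by linarith [t.1, t.2, t1.1, t1.2]
      have a3 : w 0 < 1 := by exact_mod_cast a1
      have := (hwr 0).1
      omega) (fun k _ => hwr k) hk0 (by
      have b1 : (⌊m * e r⌋₊ : ℝ) ≤ m * e r := Nat.floor_le (mul_nonneg hm0.le (he.range r).1)
      have b2 := Nat.lt_floor_add_one (m * e r)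
      have t := key (xs ⌊m * e r⌋₊) r (by
        rw [hxs _ hk0, show ((⌊m * e r⌋₊ : ℝ)) / m - e r = (⌊m * e r⌋₊ - m * e r) / m by
          field_simp, abs_div, abs_of_pos hm0]
        gcongr
        rw [abs_le]
        constructor <;> linarith)
      have t1 := hw ⌊m * e r⌋₊
      rw [hr, abs_le] at t
      rw [abs_le] at t1
      have a1 : (n : ℝ) - 1 < w ⌊m * e r⌋₊ := by linarith [t.1, t.2, t1.1, t1.2]
      have a3 : (n : ℤ) - 1 < w ⌊m * e r⌋₊ := by exact_mod_cast a1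
      have := (hwr ⌊m * e r⌋₊).2
      omega) (f := fun y => n * g y) (continuous_const.mul hg.cont)
      (fun y => by
        obtain ⟨t1, t2⟩ := hg.range y
        push_cast
        constructor <;> nlinarith) (p := q) (r := r2) (by simp [hg.base]) (by simp [hr2])
  refine ⟨e, fun y => h y / m, 1 / (2 * m), he, ⟨by fun_prop, fun y =>
    ⟨div_nonneg (g2 y).1 hm0.le, (div_le_one hm0).2 (g2 y).2⟩, by simp [g3],
    ⟨r', by simp [g4, hm0.ne']⟩⟩, by positivity, fun x y hxy => ?_, fun x x' y h1 h2 => ?_⟩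
  · obtain ⟨k, hk1, hk2⟩ : ∃ k : ℕ, k ≤ m ∧ |h y - k| ≤ 1 / 2 := by
      refine ⟨⌊h y + 1 / 2⌋₊, ?_, ?_⟩
      · apply Nat.le_of_lt_succ
        rw [Nat.floor_lt (by linarith [(g2 y).1])]
        push_cast
        linarith [(g2 y).2]
      · have b1 : (⌊h y + 1 / 2⌋₊ : ℝ) ≤ h y + 1 / 2 := Nat.floor_le (by linarith [(g2 y).1])
        have b2 := Nat.lt_floor_add_one (h y + 1 / 2)
        rw [abs_le]
        constructor <;> linarith
    have t1 := g5 y k hk1 hk2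
    have t2 := key x (xs k) (by
      rw [hxs k hk1]
      have b : |h y / m - k / m| ≤ 1 / (2 * m) := by
        rw [← sub_div, abs_div, abs_of_pos hm0, show 1 / (2 * (m : ℝ)) = (1 / 2) / m by field_simp]
        gcongr
      have := abs_sub_le (e x) (h y / m) (k / m)
      have b2 : 1 / (m : ℝ) = 1 / (2 * m) + 1 / (2 * m) := by field_simp; norm_num
      linarith)
    have t3 := hw k
    have t4 : |n * f x - n * g y| ≤ 5 := by
      rw [abs_le] at *
      constructor <;> linarith [t1.1, t1.2, t2.1, t2.2, t3.1, t3.2]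
    rw [← mul_sub, abs_mul, abs_of_pos hn0] at t4
    rw [div_lt_iff₀ hτ] at hn
    nlinarith
  · refine lt_of_lt_of_le (hη2 x x' (le_trans ?_ hmη)) (min_le_right _ _)
    have := abs_sub_le (e x) (h y / m) (e x')
    rw [abs_sub_comm (h y / m)] at this
    have b2 : 1 / (m : ℝ) = 1 / (2 * m) + 1 / (2 * m) := by field_simp; norm_num
    linarith

lemma step2 {p : X} {q : Y} (hp : IsEnd p) (hq : IsEnd q) (hX : HI X) (hY : HI Y)
    (s : {s : (X → ℝ) × (Y → ℝ) × ℝ // Good p s.1 ∧ Good q s.2.1 ∧ 0 < s.2.2}) (n : ℕ) :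
    ∃ s' : {s : (X → ℝ) × (Y → ℝ) × ℝ // Good p s.1 ∧ Good q s.2.1 ∧ 0 < s.2.2},
      (∀ x y, |s'.1.1 x - s'.1.2.1 y| ≤ s'.1.2.2 → |s.1.1 x - s.1.2.1 y| ≤ s.1.2.2) ∧
      (∀ x x' y, |s'.1.1 x - s'.1.2.1 y| ≤ s'.1.2.2 → |s'.1.1 x' - s'.1.2.1 y| ≤ s'.1.2.2 →
        dist x x' < 1 / ((n : ℝ) + 1)) ∧
      (∀ x y y', |s'.1.1 x - s'.1.2.1 y| ≤ s'.1.2.2 → |s'.1.1 x - s'.1.2.1 y'| ≤ s'.1.2.2 →
        dist y y' < 1 / ((n : ℝ) + 1)) := by
  obtain ⟨⟨f, g, τ⟩, hf, hg, hτ⟩ := s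
  have hε : 0 < 1 / ((n : ℝ) + 1) := by positivity
  obtain ⟨f1, g1, τ1, a1, a2, a3, a4, a5⟩ := step hp hY hf hg hτ hε
  obtain ⟨g2, f2, τ2, b1, b2, b3, b4, b5⟩ := step hq hX a2 a1 a3 hε
  have c : ∀ x y, |f2 x - g2 y| ≤ τ2 → |f1 x - g1 y| ≤ τ1 := fun x y h => by
    rw [abs_sub_comm] at h ⊢
    exact b4 y x h
  refine ⟨⟨(f2, g2, τ2), b2, b1, b3⟩, fun x y h => a4 x y (c x y h),
    fun x x' y h h' => a5 x x' y (c _ _ h) (c _ _ h'), fun x y y' h h' => b5 y y' x ?_ ?_⟩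
  · rwa [abs_sub_comm]
  · rwa [abs_sub_comm]

theorem exists_homeo {p : X} {q : Y} (hp : IsEnd p) (hq : IsEnd q) (hX : HI X) (hY : HI Y) :
    ∃ h : X ≃ₜ Y, h p = q := by
  choose nx h1 h2 h3 using step2 hp hq hX hY
  obtain ⟨f0, hf0, -⟩ := hp 1 one_pos
  obtain ⟨g0, hg0, -⟩ := hq 1 one_pos
  let s : ℕ → {s : (X → ℝ) × (Y → ℝ) × ℝ // Good p s.1 ∧ Good q s.2.1 ∧ 0 < s.2.2} :=
    fun n => Nat.rec ⟨(f0, g0, 1), hf0, hg0, one_pos⟩ (fun k t => nx t k) n
  let R : ℕ → Set (X × Y) := fun n => {z | |(s n).1.1 z.1 - (s n).1.2.1 z.2| ≤ (s n).1.2.2}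
  have hRc : ∀ n, IsClosed (R n) := fun n => by
    have c1 := (s n).2.1.cont
    have c2 := (s n).2.2.1.cont
    exact isClosed_le (by fun_prop) continuous_const
  have hRs : ∀ n, R (n + 1) ⊆ R n := fun n z hz => h1 (s n) n z.1 z.2 hz
  have small : ∀ d : ℝ, (∀ n : ℕ, d < 1 / ((n : ℝ) + 1)) → d ≤ 0 := by
    intro d hd
    by_contra hc
    obtain ⟨n, hn⟩ := exists_nat_one_div_lt (not_le.1 hc)
    linarith [hd n]
  have u1 : ∀ x x' y, (∀ n, (x, y) ∈ R n) → (∀ n, (x', y) ∈ R n) → x = x' := fun x x' y a b =>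
    dist_le_zero.1 (small _ fun n => h2 (s n) n x x' y (a (n + 1)) (b (n + 1)))
  have u2 : ∀ x y y', (∀ n, (x, y) ∈ R n) → (∀ n, (x, y') ∈ R n) → y = y' := fun x y y' a b =>
    dist_le_zero.1 (small _ fun n => h3 (s n) n x y y' (a (n + 1)) (b (n + 1)))
  have e1 : ∀ x, ∃ y, ∀ n, (x, y) ∈ R n := by
    intro x
    have hc : ∀ n, IsClosed {y | (x, y) ∈ R n} := fun n => (hRc n).preimage (by fun_prop)
    obtain ⟨y, hy⟩ := IsCompact.nonempty_iInter_of_sequence_nonempty_isCompact_isClosed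
      (fun n => {y | (x, y) ∈ R n}) (fun n y hy => hRs n hy) (fun n => by
        obtain ⟨y, hy⟩ := (s n).2.2.1.surj ((s n).2.1.range x).1 ((s n).2.1.range x).2
        exact ⟨y, by simp [R, hy, (s n).2.2.2.le]⟩) (hc 0).isCompact hc
    exact ⟨y, fun n => by have := mem_iInter.1 hy n; exact this⟩
  have e2 : ∀ y, ∃ x, ∀ n, (x, y) ∈ R n := by
    intro y
    have hc : ∀ n, IsClosed {x | (x, y) ∈ R n} := fun n => (hRc n).preimage (by fun_prop)
    obtain ⟨x, hx⟩ := IsCompact.nonempty_iInter_of_sequence_nonempty_isCompact_isClosed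
      (fun n => {x | (x, y) ∈ R n}) (fun n x hx => hRs n hx) (fun n => by
        obtain ⟨x, hx⟩ := (s n).2.1.surj ((s n).2.2.1.range y).1 ((s n).2.2.1.range y).2
        exact ⟨x, by simp [R, hx, (s n).2.2.2.le]⟩) (hc 0).isCompact hc
    exact ⟨x, fun n => by have := mem_iInter.1 hx n; exact this⟩
  choose F hF using e1
  choose G hG using e2
  let E : X ≃ Y := ⟨F, G, fun x => u1 _ _ _ (hG (F x)) (hF x), fun y => u2 _ _ _ (hF (G y)) (hG y)⟩
  have hcont : Continuous E := by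
    rw [continuous_iff_isClosed]
    intro C hC
    have : E ⁻¹' C = Prod.fst '' ((⋂ n, R n) ∩ Prod.snd ⁻¹' C) := by
      ext x
      constructor
      · intro hx
        exact ⟨(x, F x), ⟨mem_iInter.2 (hF x), hx⟩, rfl⟩
      · rintro ⟨⟨x', y⟩, ⟨a, b⟩, rfl⟩
        have : F x' = y := u2 _ _ _ (hF x') (mem_iInter.1 a)
        show F x' ∈ C
        rw [this]; exact b
    rw [this]
    exact (((isClosed_iInter hRc).inter (hC.preimage continuous_snd)).isCompact.image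
      continuous_fst).isClosed
  refine ⟨hcont.homeoOfEquivCompactToT2, u2 p _ _ (hF p) fun n => ?_⟩
  simp [R, (s n).2.1.base, (s n).2.2.1.base, (s n).2.2.2.le]

end Pool.Agent.H490Z.PA
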