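import Pool.Agent.H490Z.PA.Back

set_option autoImplicit false

open Set unitInterval

namespace Pool.Agent.H490Z.PA

/-! ### trivial shape -/

lemma shape_of_retracts {K : Set (ℕ → I)} (KN : ℕ → Set (ℕ → I)) (hc : ∀ N, IsClosed (KN N))
    (hanti : ∀ N, KN (N + 1) ⊆ KN N) (hK : K = ⋂ N, KN N) (ρ : ℕ → (ℕ → I) → (ℕ → I))
    (hρ : ∀ N, Continuous (ρ N)) (hρ1 : ∀ N z, ρ N z ∈ KN N) (hρ2 : ∀ N, ∀ z ∈ KN N, ρ N z = z)
    (U : Set (ℕ → I)) (hU : IsOpen U) (hKU : K ⊆ U) :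
    ∃ V : Set (ℕ → I), IsOpen V ∧ K ⊆ V ∧
      ∃ h : V ⊆ U, (ContinuousMap.inclusion h).Nullhomotopic := by
  obtain ⟨N, hN⟩ : ∃ N, KN N ⊆ U := by
    by_contra hcon
    push Not at hcon
    have hcl : ∀ N, IsClosed (KN N ∩ Uᶜ) := fun N => (hc N).inter hU.isClosed_compl
    obtain ⟨z, hz⟩ := IsCompact.nonempty_iInter_of_sequence_nonempty_isCompact_isClosed
      (fun N => KN N ∩ Uᶜ) (fun N z hz => ⟨hanti N hz.1, hz.2⟩)
      (fun N => by
        obtain ⟨z, a, b⟩ := not_subset.1 (hcon N)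
        exact ⟨z, a, b⟩) (hcl 0).isCompact hcl
    have h1 : z ∈ K := by
      rw [hK]
      exact mem_iInter.2 fun N => (mem_iInter.1 hz N).1
    exact (mem_iInter.1 hz 0).2 (hKU h1)
  let seg : (ℕ → I) → (ℕ → I) → I → (ℕ → I) := fun a b t n => Icc.convexComb (a n) (b n) t
  have hseg : Continuous fun q : ((ℕ → I) × (ℕ → I)) × I => seg q.1.1 q.1.2 q.2 := by
    refine continuous_pi fun n => Continuous.subtype_mk ?_ _
    fun_prop
  have s0 : ∀ a b, seg a b 0 = a := fun a b => funext fun n => Icc.convexComb_zero _ _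
  have s1 : ∀ a b, seg a b 1 = b := fun a b => funext fun n => Icc.convexComb_one _ _
  have s2 : ∀ a t, seg a a t = a := fun a t => funext fun n => by
    apply Subtype.ext
    simp only [seg, Icc.coe_convexComb]
    ring
  have hρN := hρ N
  let V : Set (ℕ → I) := {z | ∀ t, seg z (ρ N z) t ∈ U}
  have c1 : Continuous fun q : (ℕ → I) × I => seg q.1 (ρ N q.1) q.2 :=
    hseg.comp (f := fun q : (ℕ → I) × I => ((q.1, ρ N q.1), q.2)) (by fun_prop)
  have hV : IsOpen V := by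
    have : V = (Prod.fst '' {q : (ℕ → I) × I | seg q.1 (ρ N q.1) q.2 ∈ Uᶜ})ᶜ := by
      ext z
      simp [V]
    rw [this]
    exact ((hU.isClosed_compl.preimage c1).isCompact.image continuous_fst).isClosed.isOpen_compl
  have hVU : V ⊆ U := fun z hz => by simpa [s0] using hz 0
  refine ⟨V, hV, fun z hz t => ?_, hVU, ⟨ρ N 0, hN (hρ1 N 0)⟩, ?_⟩
  · have : z ∈ KN N := by
      rw [hK] at hz
      exact mem_iInter.1 hz N
    rw [hρ2 N z this, s2]
    exact hKU hz
  · let r : C(V, U) := ⟨fun z => ⟨ρ N z, hN (hρ1 N z)⟩, by fun_prop⟩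
    have H1 : (ContinuousMap.inclusion hVU).Homotopic r := by
      refine ⟨⟨⟨fun q => ⟨seg q.2 (ρ N q.2) q.1, q.2.2 q.1⟩, ?_⟩, fun z => ?_, fun z => ?_⟩⟩
      · exact Continuous.subtype_mk
          (c1.comp (f := fun q : I × V => ((q.2 : ℕ → I), q.1)) (by fun_prop)) _
      · exact Subtype.ext (s0 _ _)
      · exact Subtype.ext (s1 _ _)
    have H2 : r.Homotopic (ContinuousMap.const V ⟨ρ N 0, hN (hρ1 N 0)⟩) := by
      refine ⟨⟨⟨fun q => ⟨ρ N (seg q.2 0 q.1), hN (hρ1 N _)⟩, ?_⟩, fun z => ?_, fun z => ?_⟩⟩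
      · exact Continuous.subtype_mk (hρN.comp
          (hseg.comp (f := fun q : I × V => (((q.2 : ℕ → I), (0 : ℕ → I)), q.1)) (by fun_prop))) _
      · exact Subtype.ext (congrArg (ρ N) (s0 _ _))
      · exact Subtype.ext (congrArg (ρ N) (s1 _ _))
    exact H1.trans H2

/-! ### the square of a chainable continuum is finite-dimensional -/

lemma dim_le {X : Type} [MetricSpace X] [CompactSpace X]
    (hch : ∀ ε > 0, ∃ f : X → ℝ, Continuous f ∧ (∀ x, 0 ≤ f x ∧ f x ≤ 1) ∧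
      ∀ x y, f x = f y → dist x y < ε) (k : ℕ) (U : Fin k → Set (X × X)) (hU : ∀ i, IsOpen (U i))
    (hc : (⋃ i, U i) = univ) :
    ∃ V : Fin k → Set (X × X), (∀ i, IsOpen (V i)) ∧ (∀ i, V i ⊆ U i) ∧ (⋃ i, V i) = univ ∧
      ∀ x, Set.ncard {i : Fin k | x ∈ V i} ≤ 3 + 1 := by
  classical
  obtain ⟨δ, hδ, hδ2⟩ := lebesgue_number_lemma_of_metric isCompact_univ hU hc.ge
  obtain ⟨f, hf, -, hfe⟩ := hch δ hδ
  obtain ⟨η, hη, hη2⟩ := thin hf hfe
  let O : ℤ × ℤ → Set (X × X) := fun a =>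
    {z | |f z.1 / (η / 2) - a.1| < 1 ∧ |f z.2 / (η / 2) - a.2| < 1}
  have hO : ∀ a, IsOpen (O a) := fun a =>
    (isOpen_lt (show Continuous fun z : X × X => |f z.1 / (η / 2) - a.1| by fun_prop)
      continuous_const).inter
    (isOpen_lt (show Continuous fun z : X × X => |f z.2 / (η / 2) - a.2| by fun_prop)
      continuous_const)
  have aux : ∀ (x y : X) (a : ℤ), |f x / (η / 2) - a| < 1 → |f y / (η / 2) - a| < 1 →
      dist x y < δ := by
    intro x y a h1 h2
    apply hη2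
    have : |f x / (η / 2) - f y / (η / 2)| < 2 := by
      rw [abs_lt] at *
      constructor <;> linarith [h1.1, h1.2, h2.1, h2.2]
    rw [← sub_div, abs_div, abs_of_pos (by linarith : 0 < η / 2), div_lt_iff₀ (by linarith)] at this
    linarith
  have hsub : ∀ a, ∃ i : Option (Fin k), ∀ z ∈ O a, ∃ j, i = some j ∧ O a ⊆ U j := by
    intro a
    rcases (O a).eq_empty_or_nonempty with h | ⟨z, hz⟩
    · exact ⟨none, fun z hz => by rw [h] at hz; exact hz.elim⟩
    · obtain ⟨j, hj⟩ := hδ2 z trivial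
      refine ⟨some j, fun _ _ => ⟨j, rfl, fun y hy => hj ?_⟩⟩
      rw [Metric.mem_ball, Prod.dist_eq]
      exact max_lt (aux _ _ _ hy.1 hz.1) (aux _ _ _ hy.2 hz.2)
  choose ι hι using hsub
  refine ⟨fun i => ⋃ a ∈ {a | ι a = some i}, O a, fun i => isOpen_biUnion fun a _ => hO a,
    fun i z hz => ?_, ?_, fun z => ?_⟩
  · simp only [mem_iUnion] at hz
    obtain ⟨a, ha, hz⟩ := hz
    obtain ⟨j, h1, h2⟩ := hι a z hz
    have : j = i := Option.some_injective _ (h1.symm.trans ha)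
    exact this ▸ h2 hz
  · rw [eq_univ_iff_forall]
    intro z
    have fl : ∀ t : ℝ, |t - (⌊t⌋ : ℤ)| < 1 := fun t => by
      rw [abs_lt]
      constructor <;> linarith [Int.floor_le t, Int.lt_floor_add_one t]
    have hz : z ∈ O (⌊f z.1 / (η / 2)⌋, ⌊f z.2 / (η / 2)⌋) := ⟨fl _, fl _⟩
    obtain ⟨j, h1, -⟩ := hι _ z hz
    simp only [mem_iUnion]
    exact ⟨j, _, h1, hz⟩
  · have fl : ∀ (t : ℝ) (a : ℤ), |t - a| < 1 → a = ⌊t⌋ ∨ a = ⌊t⌋ + 1 := by
      intro t a h
      rw [abs_lt] at h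
      have h1 : (⌊t⌋ : ℝ) - 1 < a := by linarith [Int.floor_le t]
      have h2 : (a : ℝ) < ⌊t⌋ + 2 := by linarith [Int.lt_floor_add_one t]
      have h3 : ⌊t⌋ - 1 < a := by exact_mod_cast h1
      have h4 : a < ⌊t⌋ + 2 := by exact_mod_cast h2
      omega
    set u := ⌊f z.1 / (η / 2)⌋
    set v := ⌊f z.2 / (η / 2)⌋
    have h1 : some '' {i : Fin k | z ∈ ⋃ a ∈ {a | ι a = some i}, O a} ⊆
        {ι (u, v), ι (u + 1, v), ι (u, v + 1), ι (u + 1, v + 1)} := by
      rintro _ ⟨i, hi, rfl⟩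
      simp only [mem_iUnion, mem_ofPred_eq] at hi
      obtain ⟨⟨a, b⟩, ha, hz⟩ := hi
      have ha' : ι (a, b) = some i := ha
      rcases fl _ _ hz.1 with e1 | e1 <;> rcases fl _ _ hz.2 with e2 | e2 <;>
        simp only at e1 e2 <;> rw [← ha', e1, e2] <;> simp [u, v]
    have h2 := Set.ncard_le_ncard h1 (Set.toFinite _)
    rw [Set.ncard_image_of_injective _ (Option.some_injective _)] at h2
    refine h2.trans ?_
    refine (Set.ncard_insert_le _ _).trans (Nat.succ_le_succ ?_)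
    refine (Set.ncard_insert_le _ _).trans (Nat.succ_le_succ ?_)
    refine (Set.ncard_insert_le _ _).trans (Nat.succ_le_succ ?_)
    simp

/-! ### the square of a nondegenerate continuum has dimension at least two -/

lemma exists_chain {X : Type} [MetricSpace X] [ConnectedSpace X] (a b : X) {δ : ℝ} (hδ : 0 < δ) :
    ∃ (N : ℕ) (x : ℕ → X), x 0 = a ∧ x N = b ∧ ∀ i, dist (x i) (x (i + 1)) < δ := by
  let S : Set X := {b | ∃ (N : ℕ) (x : ℕ → X), x 0 = a ∧ x N = b ∧
    ∀ i, dist (x i) (x (i + 1)) < δ}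
  have ext : ∀ y ∈ S, ∀ z, dist y z < δ → z ∈ S := by
    rintro y ⟨N, x, h0, hN, hx⟩ z hz
    refine ⟨N + 1, fun i => if i ≤ N then x i else z, by simpa using h0, by simp, fun i => ?_⟩
    by_cases h1 : i + 1 ≤ N
    · simp only [h1, show i ≤ N by omega, if_true]; exact hx i
    · by_cases h2 : i ≤ N
      · have : i = N := by omega
        subst this
        simp only [h1, le_refl, if_true, if_false, hN]; exact hz
      · simp [h1, h2, hδ]
  have hS : IsClopen S := by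
    constructor
    · rw [← isOpen_compl_iff, Metric.isOpen_iff]
      intro y hy
      exact ⟨δ, hδ, fun z hz hzS => hy (ext z hzS y hz)⟩
    · rw [Metric.isOpen_iff]
      intro y hy
      exact ⟨δ, hδ, fun z hz => ext y hy z (by rwa [dist_comm])⟩
  have : S = univ := hS.eq_univ ⟨a, 0, fun _ => a, rfl, rfl, fun _ => by simpa using hδ⟩
  exact (this ▸ mem_univ b : b ∈ S)

/-- the oriented jump between two of three colours -/
def jump (a b : Fin 3) : ℤ := if b = a then 0 else if b = a + 1 then 1 else -1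

lemma jump_sq : ∀ a b c d e : Fin 3, a ≠ e → b ≠ e → c ≠ e → d ≠ e →
    jump a b + jump b c = jump a d + jump d c := by decide

lemma jump_tel (e : Fin 3) (c : ℕ → Fin 3) (N : ℕ) (h : ∀ i ≤ N, c i ≠ e) :
    ∑ i ∈ Finset.range N, jump (c i) (c (i + 1)) = jump (c 0) (c N) := by
  induction N with
  | zero => simp [jump]
  | succ N ih =>
    rw [Finset.sum_range_succ, ih fun i hi => h i (by omega)]
    have := jump_sq (c 0) (c N) (c (N + 1)) (c (N + 1)) e (h 0 (by omega)) (h N (by omega))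
      (h _ le_rfl) (h _ le_rfl)
    rw [this]
    simp [jump]

lemma sperner (c : ℕ → ℕ → Fin 3) (N : ℕ)
    (hsq : ∀ i j, ∃ e, c i j ≠ e ∧ c (i + 1) j ≠ e ∧ c (i + 1) (j + 1) ≠ e ∧ c i (j + 1) ≠ e)
    (hb : ∀ i, c i 0 ≠ 2) (hr : ∀ j, c N j ≠ 0) (ht : ∀ i, c i N ≠ 1) (hl : ∀ j, c 0 j ≠ 1) :
    False := by
  have row : ∀ j M, ∑ i ∈ Finset.range M, jump (c i j) (c (i + 1) j) + jump (c M j) (c M (j + 1)) =
      jump (c 0 j) (c 0 (j + 1)) + ∑ i ∈ Finset.range M, jump (c i (j + 1)) (c (i + 1) (j + 1)) := by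
    intro j M
    induction M with
    | zero => simp
    | succ M ih =>
      obtain ⟨e, e1, e2, e3, e4⟩ := hsq M j
      have := jump_sq _ _ _ _ e e1 e2 e3 e4
      rw [Finset.sum_range_succ, Finset.sum_range_succ]
      linarith
  have all : ∀ M, ∑ i ∈ Finset.range N, jump (c i 0) (c (i + 1) 0) +
      ∑ j ∈ Finset.range M, jump (c N j) (c N (j + 1)) =
      ∑ j ∈ Finset.range M, jump (c 0 j) (c 0 (j + 1)) +
      ∑ i ∈ Finset.range N, jump (c i M) (c (i + 1) M) := by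
    intro M
    induction M with
    | zero => simp
    | succ M ih =>
      have := row M N
      rw [Finset.sum_range_succ, Finset.sum_range_succ]
      linarith
  have h := all N
  rw [jump_tel 2 (fun i => c i 0) N fun i _ => hb i, jump_tel 0 (fun j => c N j) N fun j _ => hr j,
    jump_tel 1 (fun j => c 0 j) N fun j _ => hl j, jump_tel 1 (fun i => c i N) N fun i _ => ht i]
    at h
  have key : ∀ p q r s : Fin 3, p ≠ 2 → p ≠ 1 → q ≠ 2 → q ≠ 0 → r ≠ 0 → r ≠ 1 → s ≠ 1 →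
      jump p q + jump q r ≠ jump p s + jump s r := by decide
  exact key _ _ _ _ (hb 0) (hl 0) (hb N) (hr 0) (hr N) (ht N) (ht 0) h

lemma not_dim_le_one {X : Type} [MetricSpace X] [CompactSpace X] [ConnectedSpace X] [Nontrivial X] :
    ¬ ∀ (k : ℕ) (U : Fin k → Set (X × X)), (∀ i, IsOpen (U i)) → (⋃ i, U i) = Set.univ →
        ∃ V : Fin k → Set (X × X), (∀ i, IsOpen (V i)) ∧ (∀ i, V i ⊆ U i) ∧
          (⋃ i, V i) = Set.univ ∧ ∀ x, Set.ncard {i : Fin k | x ∈ V i} ≤ 1 + 1 := by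
  intro H
  obtain ⟨a, b, hab⟩ := exists_pair_ne X
  obtain ⟨V, v1, v2, v3, v4⟩ := H 3 ![{z | z.1 ≠ b}, {z | z.2 ≠ b ∧ z.1 ≠ a}, {z | z.2 ≠ a}]
    (by
      have o1 : ∀ c : X, IsOpen {z : X × X | z.1 ≠ c} := fun c =>
        isOpen_ne_fun continuous_fst continuous_const
      have o2 : ∀ c : X, IsOpen {z : X × X | z.2 ≠ c} := fun c =>
        isOpen_ne_fun continuous_snd continuous_const
      intro i
      fin_cases i
      · exact o1 b
      · exact (o2 b).inter (o1 a)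
      · exact o2 a)
    (by
      rw [eq_univ_iff_forall]
      intro z
      rw [mem_iUnion]
      by_cases h1 : z.1 = b
      · by_cases h2 : z.2 = a
        · exact ⟨1, show z.2 ≠ b ∧ z.1 ≠ a from ⟨h2 ▸ hab, h1 ▸ hab.symm⟩⟩
        · exact ⟨2, h2⟩
      · exact ⟨0, h1⟩)
  obtain ⟨δ, hδ, hδ2⟩ := lebesgue_number_lemma_of_metric isCompact_univ v1 v3.ge
  choose col hcol using fun z : X × X => hδ2 z trivial
  obtain ⟨N, x, h0, hN, hx⟩ := exists_chain a b hδ
  have self : ∀ z, z ∈ V (col z) := fun z => hcol z (Metric.mem_ball_self hδ)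
  refine sperner (fun i j => col (x i, x j)) N (fun i j => ?_) (fun i h => ?_) (fun j h => ?_)
    (fun i h => ?_) (fun j h => ?_)
  · obtain ⟨e, he⟩ : ∃ e, (x i, x j) ∉ V e := by
      by_contra hcon
      push Not at hcon
      have h1 := v4 (x i, x j)
      have h2 : {e : Fin 3 | (x i, x j) ∈ V e} = univ := eq_univ_iff_forall.2 hcon
      rw [h2, Set.ncard_univ] at h1
      simp at h1
    have k : ∀ z, dist (x i, x j) z < δ → col z ≠ e := fun z hz h => he (h ▸ hcol z hz)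
    refine ⟨e, k _ ?_, k _ ?_, k _ ?_, k _ ?_⟩ <;> simp [Prod.dist_eq, hδ, hx]
  · have := v2 _ (self (x i, x 0))
    rw [h] at this
    exact this h0
  · have := v2 _ (self (x N, x j))
    rw [h] at this
    exact this hN
  · have := v2 _ (self (x i, x N))
    rw [h] at this
    exact this.1 hN
  · have := v2 _ (self (x 0, x j))
    rw [h] at this
    exact this.2 h0

end Pool.Agent.H490Z.PA
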