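import Pool.Agent.H490Z.PA.Back

set_option autoImplicit false

open Set

namespace Pool.Agent.H490Z.PA

open Pool.Agent.Helper162.Arc

section
variable {X : Type} [TopologicalSpace X] [CompactSpace X] [T2Space X]

/-- conclusion of the spiral construction -/
def Spiral (f : X → ℝ) (p : X) (η : ℝ) (Z : Set X) (t : ℝ) : Prop :=
  ∃ (M : ℝ) (g : X → ℝ), ContinuousOn g Z ∧ (∀ x ∈ Z, 0 ≤ g x ∧ g x ≤ M) ∧ g p = 0 ∧
    (∀ x ∈ Z, t ≤ f x → g x = M) ∧ (∀ x ∈ Z, g x = M → |f x - t| ≤ η) ∧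
    ∀ x ∈ Z, ∀ y ∈ Z, g x = g y → |f x - f y| ≤ 2 * η

omit [CompactSpace X] [T2Space X] in
lemma spiral_base {f : X → ℝ} (hf : Continuous f) {p : X} {η : ℝ} (hη : 0 < η) {Z : Set X} {t : ℝ}
    (ht : f p < t) (hZ : ∀ x ∈ Z, f p - η ≤ f x ∧ f x ≤ t + η) : Spiral f p η Z t := by
  refine ⟨t - f p, fun x => max (f p) (min t (f x)) - f p, by fun_prop, fun x _ => ?_, ?_,
    fun x _ h => ?_, fun x hx h => ?_, fun x hx y hy h => ?_⟩
  · constructor <;>
    · simp only [max_def, min_def]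
      split_ifs <;> linarith
  · simp only [min_eq_right ht.le, max_self, sub_self]
  · simp only [min_eq_left h, max_eq_right ht.le]
  · have := hZ x hx
    simp only [max_def, min_def] at h
    rw [abs_le]
    constructor <;> split_ifs at h <;> linarith
  · have := hZ x hx
    have := hZ y hy
    simp only [max_def, min_def] at h
    rw [abs_le]
    constructor <;> split_ifs at h <;> linarith

lemma lower {f : X → ℝ} (hf : Continuous f) {p : X} {Z : Set X} (hZ : IsClosed Z) {s b δ0 : ℝ}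
    (hδ0 : 0 < δ0) (hp : p ∈ Z ∩ {x | s ≤ f x})
    (h : ∀ x ∈ connectedComponentIn (Z ∩ {x | s ≤ f x}) p, f x < b) :
    ∃ δ, 0 < δ ∧ δ ≤ δ0 ∧ ∃ Z' : Set X, IsClosed Z' ∧
      IsClosed ((Z ∩ {x | s - δ ≤ f x}) \ Z') ∧ Z' ⊆ Z ∩ {x | s - δ ≤ f x} ∧ p ∈ Z' ∧
      ∀ x ∈ Z', f x < b := by
  have hc : ∀ c : ℝ, IsClosed (Z ∩ {x | c ≤ f x}) := fun c =>
    hZ.inter (isClosed_le continuous_const hf)
  obtain ⟨D, d1, d2, d3, d4, d5⟩ := sep_pset (hc s) (B := {x | b ≤ f x})
    (isClosed_le continuous_const hf) hp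
    (Set.disjoint_left.2 fun x hx (hx' : b ≤ f x) => by linarith [h x hx])
  obtain ⟨O, O', o1, o2, o3, o4, o5⟩ := normal_separation d1 d2 disjoint_sdiff_right
  let P : Set X := O ∩ {x | f x < b}
  have hP : IsOpen P := o1.inter (isOpen_lt hf continuous_const)
  have hDP : D ⊆ P := fun x hx => ⟨o3 hx, show f x < b from
    lt_of_not_ge fun h : b ≤ f x => Set.disjoint_left.1 d5 hx h⟩
  have hcov : ∀ x ∈ Z, s ≤ f x → x ∈ P ∪ O' := by
    intro x hx hs
    by_cases hD : x ∈ D
    · exact Or.inl (hDP hD)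
    · exact Or.inr (o4 ⟨⟨hx, hs⟩, hD⟩)
  obtain ⟨δ, hδ, hδ1, hδ2⟩ : ∃ δ, 0 < δ ∧ δ ≤ δ0 ∧ ∀ x ∈ Z, s - δ ≤ f x → x ∈ P ∪ O' := by
    have hK : IsCompact (Z ∩ (P ∪ O')ᶜ) := (hZ.inter (hP.union o2).isClosed_compl).isCompact
    rcases (Z ∩ (P ∪ O')ᶜ).eq_empty_or_nonempty with h0 | h0
    · refine ⟨δ0, hδ0, le_rfl, fun x hx _ => ?_⟩
      by_contra hcon
      have : x ∈ Z ∩ (P ∪ O')ᶜ := ⟨hx, hcon⟩
      rw [h0] at this
      exact this
    · obtain ⟨z, hz, hmax⟩ := hK.exists_isMaxOn h0 hf.continuousOn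
      have hzs : f z < s := by
        by_contra hcon
        exact hz.2 (hcov z hz.1 (not_lt.1 hcon))
      refine ⟨min δ0 ((s - f z) / 2), lt_min hδ0 (by linarith), min_le_left _ _, fun x hx hs => ?_⟩
      by_contra hcon
      have : f x ≤ f z := hmax (show x ∈ Z ∩ (P ∪ O')ᶜ from ⟨hx, hcon⟩)
      linarith [min_le_right δ0 ((s - f z) / 2)]
  have hdis : ∀ x, x ∈ P → x ∉ O' := fun x hx => Set.disjoint_left.1 o5 hx.1
  refine ⟨δ, hδ, hδ1, (Z ∩ {x | s - δ ≤ f x}) ∩ O'ᶜ, (hc _).inter o2.isClosed_compl, ?_,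
    inter_subset_left, ⟨⟨hp.1, ?_⟩, hdis p (hDP d4)⟩, fun x hx => ?_⟩
  · have : (Z ∩ {x | s - δ ≤ f x}) \ ((Z ∩ {x | s - δ ≤ f x}) ∩ O'ᶜ) =
        (Z ∩ {x | s - δ ≤ f x}) ∩ Pᶜ := by
      ext x
      constructor
      · rintro ⟨a, b⟩
        refine ⟨a, fun hP' => b ⟨a, hdis x hP'⟩⟩
      · rintro ⟨a, b⟩
        exact ⟨a, fun c => c.2 ((hδ2 x a.1 a.2).resolve_left b)⟩
    rw [this]
    exact (hc _).inter hP.isClosed_compl
  · have : s ≤ f p := hp.2
    show s - δ ≤ f p
    linarith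
  · exact ((hδ2 x hx.1.1 hx.1.2).resolve_right hx.2).2

lemma spiral (hX : HI X) (p : X) {η : ℝ} (hη : 0 < η) : ∀ (k : ℕ) (f : X → ℝ), Continuous f →
    ∀ (Z : Set X) (s t : ℝ), IsClosed Z → p ∈ Z → t - s ≤ k * (η / 4) → f p < t →
    (∀ x ∈ Z, s - η ≤ f x ∧ f x ≤ t + η) →
    (∀ x ∈ connectedComponentIn (Z ∩ {x | s ≤ f x}) p, f x < t) → Spiral f p η Z t := by
  classical
  intro k
  induction k with
  | zero =>
    intro f hf Z s t _ _ hk ht hZ _
    simp only [Nat.cast_zero, zero_mul] at hk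
    exact spiral_base hf hη ht fun x hx => ⟨by linarith [(hZ x hx).1], (hZ x hx).2⟩
  | succ k ih =>
    intro f hf Z s t hZc hp hk ht hZ hJ
    rcases le_or_gt (f p) s with hs | hs
    · exact spiral_base hf hη ht fun x hx => ⟨by linarith [(hZ x hx).1], (hZ x hx).2⟩
    have hpZ : p ∈ Z ∩ {x | s ≤ f x} := ⟨hp, hs.le⟩
    have hc : IsClosed (Z ∩ {x | s ≤ f x}) := hZc.inter (isClosed_le continuous_const hf)
    set J := connectedComponentIn (Z ∩ {x | s ≤ f x}) p with hJdef
    have hJc : IsClosed J := isClosed_cc hc p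
    have hpJ : p ∈ J := mem_connectedComponentIn hpZ
    obtain ⟨z, hz, hmax⟩ := hJc.isCompact.exists_isMaxOn ⟨p, hpJ⟩ hf.continuousOn
    have hzt : f z < t := hJ z hz
    obtain ⟨δ, hδ, hδ1, Z', z1, z2, z3, z4, z5⟩ := lower hf hZc (s := s)
      (b := min t (f z + η / 2)) (δ0 := η / 4) (by linarith) hpZ (fun x hx => by
        have : f x ≤ f z := hmax hx
        exact lt_min (by linarith) (by linarith))
    have z6 : ∀ x ∈ Z', s - δ ≤ f x := fun x hx => (z3 hx).2
    have z7 : ∀ x ∈ Z', f x < t := fun x hx => lt_of_lt_of_le (z5 x hx) (min_le_left _ _)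
    have z8 : ∀ x ∈ Z', f x < f z + η / 2 := fun x hx =>
      lt_of_lt_of_le (z5 x hx) (min_le_right _ _)
    obtain ⟨M', g', a1, a2, a3, a4, a5, a6⟩ := ih (fun x => - f x) hf.neg Z' (-(f z - η / 2))
      (-(s - δ)) z1 z4 (by push_cast at hk; linarith) (by linarith)
      (fun x hx => ⟨by linarith [z8 x hx], by linarith [z6 x hx]⟩) (by
        intro x hx
        have hpK : p ∈ Z' ∩ {x | -(f z - η / 2) ≤ - f x} := by
          by_contra hcon
          rw [connectedComponentIn_eq_empty hcon] at hx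
          exact hx
        have hc' : IsClosed (Z' ∩ {x | -(f z - η / 2) ≤ - f x}) :=
          z1.inter (isClosed_le continuous_const hf.neg)
        rcases hX _ _ (isClosed_cc hc' p) isPreconnected_connectedComponentIn hJc
          isPreconnected_connectedComponentIn ⟨p, mem_connectedComponentIn hpK, hpJ⟩ with h | h
        · have : s ≤ f x := (connectedComponentIn_subset _ _ (h hx)).2
          linarith
        · have : -(f z - η / 2) ≤ - f z := (connectedComponentIn_subset _ _ (h hz)).2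
          linarith)
    set s' := s - δ with hs'
    have hst : s' < t := by linarith
    have hM' : 0 ≤ M' := by linarith [(a2 p z4).1, (a2 p z4).2]
    let W : Set X := (Z ∩ {x | f x ≤ s'}) ∪ ((Z ∩ {x | s' ≤ f x}) \ Z')
    have hW : IsClosed W := (hZc.inter (isClosed_le hf continuous_const)).union z2
    let g : X → ℝ := fun x => if x ∈ Z' then g' x else M' + (max s' (min t (f x)) - s')
    have e1 : ∀ x ∈ Z', g x = g' x := fun x hx => if_pos hx
    have e2' : ∀ x, x ∉ Z' → g x = M' + (max s' (min t (f x)) - s') := fun x hx => if_neg hx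
    have e2 : ∀ x ∈ W, g x = M' + (max s' (min t (f x)) - s') := by
      intro x hx
      by_cases h : x ∈ Z'
      · have t1 : f x ≤ s' := (hx.resolve_right fun hh => hh.2 h).2
        rw [e1 x h, a4 x h (by linarith), min_eq_right (by linarith), max_eq_left t1]
        ring
      · exact e2' x h
    have c1 : ∀ x, s' ≤ max s' (min t (f x)) ∧ max s' (min t (f x)) ≤ t := fun x =>
      ⟨le_max_left _ _, max_le hst.le (min_le_left _ _)⟩
    have mix : ∀ x ∈ Z', ∀ y ∈ Z, y ∉ Z' → g x = g y → |f x - f y| ≤ 2 * η := by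
      intro x hx y hy hy' h
      rw [e1 x hx, e2' y hy'] at h
      have t1 : g' x = M' := by linarith [(a2 x hx).2, (c1 y).1]
      have t2 := a5 x hx t1
      have t3 := hZ y hy
      rw [t1] at h
      simp only [max_def, min_def] at h
      rw [abs_le] at t2 ⊢
      constructor <;> split_ifs at h <;> linarith [t2.1, t2.2]
    refine ⟨M' + (t - s'), g, ?_, fun x hx => ?_, by rw [e1 p z4, a3], fun x hx h => ?_,
      fun x hx h => ?_, fun x hx y hy h => ?_⟩
    · have b1 : ContinuousOn g Z' := a1.congr e1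
      have b2 : ContinuousOn g W :=
        (show Continuous fun x => M' + (max s' (min t (f x)) - s') by fun_prop).continuousOn.congr e2
      refine (b1.union_of_isClosed b2 z1 hW).mono fun x hx => ?_
      by_cases h : x ∈ Z'
      · exact Or.inl h
      · rcases le_total (f x) s' with h' | h'
        · exact Or.inr (Or.inl ⟨hx, h'⟩)
        · exact Or.inr (Or.inr ⟨⟨hx, h'⟩, h⟩)
    · by_cases h : x ∈ Z'
      · rw [e1 x h]
        exact ⟨(a2 x h).1, by linarith [(a2 x h).2]⟩
      · rw [e2' x h]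
        exact ⟨by linarith [(c1 x).1], by linarith [(c1 x).2]⟩
    · have h' : x ∉ Z' := fun hh => by linarith [z7 x hh]
      rw [e2' x h', min_eq_left h, max_eq_right hst.le]
    · by_cases h' : x ∈ Z'
      · rw [e1 x h'] at h
        linarith [(a2 x h').2]
      · rw [e2' x h'] at h
        have t3 := hZ x hx
        simp only [max_def, min_def] at h
        rw [abs_le]
        constructor <;> split_ifs at h <;> linarith
    · by_cases hx' : x ∈ Z' <;> by_cases hy' : y ∈ Z'
      · rw [e1 x hx', e1 y hy'] at h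
        have := a6 x hx' y hy' h
        rw [abs_le] at this ⊢
        constructor <;> linarith [this.1, this.2]
      · exact mix x hx' y hy hy' h
      · rw [abs_sub_comm]
        exact mix y hy' x hx hx' h.symm
      · rw [e2' x hx', e2' y hy'] at h
        have t3 := hZ x hx
        have t4 := hZ y hy
        simp only [max_def, min_def] at h
        rw [abs_le]
        constructor <;> split_ifs at h <;> linarith

end

/-- Every point of a chainable hereditarily indecomposable continuum is an end point. -/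
theorem isEnd {X : Type} [MetricSpace X] [CompactSpace X] [Nontrivial X] (hX : HI X)
    (hch : ∀ ε > 0, ∃ f : X → ℝ, Continuous f ∧ (∀ x, 0 ≤ f x ∧ f x ≤ 1) ∧
      ∀ x y, f x = f y → dist x y < ε) (p : X) : IsEnd p := by
  intro ε hε
  obtain ⟨q, hq⟩ := exists_ne p
  have hd : 0 < dist q p := dist_pos.2 hq
  obtain ⟨f, hf, hr, hfe⟩ := hch (min ε (dist q p)) (lt_min hε hd)
  obtain ⟨η, hη, hη2⟩ := thin hf hfe
  obtain ⟨k, hk⟩ := exists_nat_ge (2 / (η / 2 / 4))
  have hk' : 2 - 0 ≤ k * (η / 2 / 4) := by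
    rw [div_le_iff₀ (by positivity)] at hk
    linarith
  obtain ⟨M, g, a1, a2, a3, -, -, a6⟩ := spiral hX p (η := η / 2) (by linarith) k f hf univ 0 2
    isClosed_univ trivial hk' (by linarith [(hr p).2])
    (fun x _ => ⟨by linarith [(hr x).1], by linarith [(hr x).2]⟩)
    (fun x _ => by linarith [(hr x).2])
  have hg : Continuous g := continuousOn_univ.1 a1
  have hfib : ∀ x y, g x = g y → dist x y < min ε (dist q p) := fun x y h =>
    hη2 x y (by linarith [a6 x trivial y trivial h])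
  obtain ⟨r, -, hmax⟩ := isCompact_univ.exists_isMaxOn ⟨p, trivial⟩ hg.continuousOn
  have hle : ∀ x, g x ≤ g r := fun x => hmax (mem_univ x)
  have hpos : 0 < g r := by
    have h1 : g q ≠ g p := fun h => by
      have := lt_of_lt_of_le (hfib q p h) (min_le_right _ _)
      linarith
    rw [a3] at h1
    exact lt_of_lt_of_le (lt_of_le_of_ne (a2 q trivial).1 h1.symm) (hle q)
  refine ⟨fun x => g x / g r, ⟨by fun_prop, fun x => ⟨div_nonneg (a2 x trivial).1 hpos.le,
    (div_le_one hpos).2 (hle x)⟩, by simp [a3], ⟨r, div_self hpos.ne'⟩⟩, fun x y h => ?_⟩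
  exact lt_of_lt_of_le (hfib x y ((div_left_inj' hpos.ne').1 h)) (min_le_left _ _)

/-- Bing: a chainable hereditarily indecomposable continuum is homogeneous. -/
theorem homogeneous {X : Type} [MetricSpace X] [CompactSpace X] [ConnectedSpace X] [Nontrivial X]
    (hX : HI X) (hch : ∀ ε > 0, ∃ f : X → ℝ, Continuous f ∧ (∀ x, 0 ≤ f x ∧ f x ≤ 1) ∧
      ∀ x y, f x = f y → dist x y < ε) (p q : X) : ∃ h : X ≃ₜ X, h p = q :=
  exists_homeo (isEnd hX hch p) (isEnd hX hch q) hX hX

end Pool.Agent.H490Z.PA
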