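import Pool.Agent.Helper162.Arc.Tree

set_option autoImplicit false

open Set

namespace Pool.Agent.H490Z.PA

open Pool.Agent.Helper162.Arc

/-- Hereditary indecomposability: subcontinua that meet are nested. -/
def HI (X : Type) [TopologicalSpace X] : Prop :=
  ∀ A B : Set X, IsClosed A → IsPreconnected A → IsClosed B → IsPreconnected B →
    (A ∩ B).Nonempty → A ⊆ B ∨ B ⊆ A

variable {X : Type} [TopologicalSpace X] [CompactSpace X] [T2Space X]

lemma isClosed_sat {Z D : Set X} (hZ : IsClosed Z) (hD : IsClosed D) :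
    IsClosed {x | x ∈ Z ∧ ¬ Disjoint (connectedComponentIn Z x) D} := by
  rw [← isOpen_compl_iff, isOpen_iff_forall_mem_open]
  intro x hx
  by_cases hxZ : x ∈ Z
  · have hd : Disjoint (connectedComponentIn Z x) D := by
      by_contra h
      exact hx ⟨hxZ, h⟩
    obtain ⟨E, h1, h2, h3, h4, h5⟩ := sep_pset hZ hD hxZ hd
    refine ⟨(Z \ E)ᶜ, ?_, h2.isOpen_compl, fun h => h.2 h4⟩
    rintro y hy ⟨hyZ, hy2⟩
    have hyE : y ∈ E := by
      by_contra h
      exact hy ⟨hyZ, h⟩
    apply hy2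
    have hsub : connectedComponentIn Z y ⊆ E ∪ (Z \ E) := by
      intro z hz
      have := connectedComponentIn_subset Z y hz
      by_cases h : z ∈ E
      · exact Or.inl h
      · exact Or.inr ⟨this, h⟩
    rcases pc_cases isPreconnected_connectedComponentIn h1 h2 hsub disjoint_sdiff_right with h | h
    · exact h5.mono_left h
    · exact absurd hyE (h (mem_connectedComponentIn hyZ)).2
  · exact ⟨Zᶜ, fun y hy h => hy h.1, hZ.isOpen_compl, hxZ⟩

/-- The crookedness separation. -/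
lemma crook (hX : HI X) {A B C D : Set X} (hA : IsClosed A) (hB : IsClosed B) (hC : IsClosed C)
    (hD : IsClosed D) (hCA : C ⊆ A) (hDB : D ⊆ B) (hCB : Disjoint C B) (hDA : Disjoint D A) :
    ∃ A' B' : Set X, IsClosed A' ∧ IsClosed (A \ A') ∧ A' ⊆ A ∧ C ⊆ A' ∧
      IsClosed B' ∧ IsClosed (B \ B') ∧ B' ⊆ B ∧ D ⊆ B' ∧ Disjoint B' A' := by
  obtain ⟨A', h1, h2, h3, h4, h5⟩ := cutwire hA hC (isClosed_sat hB hD) hCA (by
    intro c hc
    rw [Set.disjoint_left]
    rintro x hx ⟨hxB, hx2⟩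
    rcases hX _ _ (isClosed_cc hA c) isPreconnected_connectedComponentIn (isClosed_cc hB x)
      isPreconnected_connectedComponentIn ⟨x, hx, mem_connectedComponentIn hxB⟩ with h | h
    · exact Set.disjoint_left.1 hCB hc
        (connectedComponentIn_subset _ _ (h (mem_connectedComponentIn (hCA hc))))
    · exact hx2 (hDA.symm.mono_left (h.trans (connectedComponentIn_subset _ _))))
  obtain ⟨B', g1, g2, g3, g4, g5⟩ := cutwire hB hD h1 hDB (by
    intro d hd
    rw [Set.disjoint_left]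
    intro x hx hxA
    refine Set.disjoint_left.1 h5 hxA ⟨connectedComponentIn_subset _ _ hx, fun h => ?_⟩
    rw [← connectedComponentIn_eq hx] at h
    exact Set.disjoint_left.1 h (mem_connectedComponentIn (hDB hd)) hd)
  exact ⟨A', B', h1, h2, h3, h4, g1, g2, g3, g4, g5⟩

/-- The N-shaped fold. -/
noncomputable def nu (a b t : ℝ) : ℝ := max (min t (2 * b - t)) (t - 2 * (b - a))

lemma continuous_nu (a b : ℝ) : Continuous (nu a b) := by
  unfold nu; fun_prop

lemma nu1 {a b t : ℝ} (hab : a ≤ b) (h : t ≤ b) : nu a b t = t := by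
  unfold nu
  rw [min_eq_left (by linarith), max_eq_left (by linarith)]

lemma nu2 {a b t : ℝ} (h : b ≤ t) (h' : t ≤ 2 * b - a) : nu a b t = 2 * b - t := by
  unfold nu
  rw [min_eq_right (by linarith), max_eq_left (by linarith)]

lemma nu3 {a b t : ℝ} (hab : a ≤ b) (h' : 2 * b - a ≤ t) : nu a b t = t - 2 * (b - a) := by
  unfold nu
  rw [min_eq_right (by linarith), max_eq_right (by linarith)]

lemma nu_close {a b a' b' s t η : ℝ} (ha : a' = a + η) (hb : b' = b - η) (hη : 0 ≤ η)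
    (h1 : s ≤ t) (h2 : t ≤ s + 4 * η) : |nu a b t - nu a' b' s| ≤ 8 * η := by
  subst ha hb
  unfold nu
  rw [abs_le]
  constructor <;>
  · simp only [max_def, min_def]
    split_ifs <;> linarith

/-- The lifting property of a map `φ : [0, M] → [0, L]`. -/
def Lift (X : Type) [TopologicalSpace X] (M L : ℝ) (φ : ℝ → ℝ) : Prop :=
  ∀ f : X → ℝ, Continuous f → (∀ x, 0 ≤ f x ∧ f x ≤ L) → ∀ p r, f p = 0 → f r = L →
    ∀ ε > 0, ∃ g : X → ℝ, Continuous g ∧ (∀ x, 0 ≤ g x ∧ g x ≤ M) ∧ g p = 0 ∧ g r = M ∧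
      ∀ x, |φ (g x) - f x| ≤ ε

lemma lift_nu (hX : HI X) {L a b : ℝ} (ha : 0 ≤ a) (hab : a < b) (hb : b ≤ L) :
    Lift X (L + 2 * (b - a)) L (nu a b) := by
  classical
  intro f hf hr p r hp hrL ε hε
  obtain ⟨η, hη, hη1, hη2⟩ : ∃ η : ℝ, 0 < η ∧ 10 * η ≤ ε ∧ 4 * η ≤ b - a :=
    ⟨min (ε / 10) ((b - a) / 4), lt_min (by linarith) (by linarith),
      by linarith [min_le_left (ε / 10) ((b - a) / 4)],
      by linarith [min_le_right (ε / 10) ((b - a) / 4)]⟩
  have hL : 0 < L := by linarith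
  set a' := a + η with ha'
  set b' := b - η with hb'
  have cle : ∀ c : ℝ, IsClosed {x | f x ≤ c} := fun c => isClosed_le hf continuous_const
  have cge : ∀ c : ℝ, IsClosed {x | c ≤ f x} := fun c => isClosed_le continuous_const hf
  obtain ⟨A', B', h1, h2, h3, h4, g1, g2, g3, g4, g5⟩ := crook hX (cle b') (cge a') (cle a) (cge b)
    (fun x (hx : f x ≤ a) => show f x ≤ b' by linarith)
    (fun x (hx : b ≤ f x) => show a' ≤ f x by linarith)
    (Set.disjoint_left.2 fun x (hx : f x ≤ a) (hx' : a' ≤ f x) => by linarith)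
    (Set.disjoint_left.2 fun x (hx : b ≤ f x) (hx' : f x ≤ b') => by linarith)
  let X1 : Set X := (({x | f x ≤ b'} \ A') ∪ {x | b' ≤ f x}) ∩
    (({x | a' ≤ f x} \ B') ∪ {x | f x ≤ a'})
  have hX1 : IsClosed X1 := (h2.union (cge b')).inter (g2.union (cle a'))
  let g0 : X → ℝ := fun x => if x ∈ A' then f x else if x ∈ B' then f x + 2 * (b' - a')
    else 2 * b' - max a' (min b' (f x))
  have e0 : ∀ x ∈ A', g0 x = f x := fun x hx => by simp [g0, hx]
  have e2 : ∀ x ∈ B', g0 x = f x + 2 * (b' - a') := fun x hx => by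
    have : x ∉ A' := Set.disjoint_left.1 g5 hx
    simp [g0, hx, this]
  have e1 : ∀ x ∈ X1, g0 x = 2 * b' - max a' (min b' (f x)) := by
    rintro x ⟨k1, k2⟩
    by_cases hxA : x ∈ A'
    · have t1 : f x ≤ b' := h3 hxA
      have t2 : b' ≤ f x := k1.resolve_left (fun h => h.2 hxA)
      rw [e0 x hxA, min_eq_left t2, max_eq_right (by linarith)]
      linarith
    · by_cases hxB : x ∈ B'
      · have t1 : a' ≤ f x := g3 hxB
        have t2 : f x ≤ a' := k2.resolve_left (fun h => h.2 hxB)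
        rw [e2 x hxB, min_eq_right (by linarith), max_eq_left t2]
        linarith
      · simp [g0, hxA, hxB]
  have hcov : ∀ x, x ∈ A' ∨ x ∈ B' ∨ (x ∈ X1 ∧ a < f x ∧ f x < b) := by
    intro x
    by_cases hxA : x ∈ A'
    · exact Or.inl hxA
    by_cases hxB : x ∈ B'
    · exact Or.inr (Or.inl hxB)
    refine Or.inr (Or.inr ⟨⟨?_, ?_⟩, ?_, ?_⟩)
    · rcases le_total (f x) b' with h | h
      · exact Or.inl ⟨h, hxA⟩
      · exact Or.inr h
    · rcases le_total a' (f x) with h | h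
      · exact Or.inl ⟨h, hxB⟩
      · exact Or.inr h
    · by_contra h
      exact hxA (h4 (show f x ≤ a by linarith))
    · by_contra h
      exact hxB (g4 (show b ≤ f x by linarith))
  have hg0 : Continuous g0 := by
    have c0 : ContinuousOn g0 A' := hf.continuousOn.congr e0
    have c2 : ContinuousOn g0 B' :=
      (show Continuous fun x => f x + 2 * (b' - a') by fun_prop).continuousOn.congr e2
    have c1 : ContinuousOn g0 X1 :=
      (show Continuous fun x => 2 * b' - max a' (min b' (f x)) by fun_prop).continuousOn.congr e1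
    have := (c0.union_of_isClosed c2 h1 g1).union_of_isClosed c1 (h1.union g1) hX1
    rw [← continuousOn_univ]
    refine this.mono fun x _ => ?_
    rcases hcov x with h | h | h
    · exact Or.inl (Or.inl h)
    · exact Or.inl (Or.inr h)
    · exact Or.inr h.1
  have hab' : a' ≤ b' := by linarith
  have hmain : ∀ x, (0 ≤ g0 x ∧ g0 x ≤ L + 2 * (b' - a')) ∧ |nu a' b' (g0 x) - f x| ≤ η := by
    intro x
    obtain ⟨r1, r2⟩ := hr x
    rcases hcov x with h | h | ⟨h, k1, k2⟩
    · have t1 : f x ≤ b' := h3 h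
      rw [e0 x h, nu1 hab' t1]
      refine ⟨⟨r1, by linarith⟩, by simpa using hη.le⟩
    · have t1 : a' ≤ f x := g3 h
      rw [e2 x h, nu3 hab' (by linarith)]
      refine ⟨⟨by linarith, by linarith⟩, by simpa using hη.le⟩
    · have t1 : a' ≤ max a' (min b' (f x)) := le_max_left _ _
      have t2 : max a' (min b' (f x)) ≤ b' := max_le hab' (min_le_left _ _)
      rw [e1 x h, nu2 (by linarith) (by linarith)]
      refine ⟨⟨by linarith, by linarith⟩, ?_⟩
      rw [abs_le]
      constructor <;>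
      · simp only [max_def, min_def]
        split_ifs <;> linarith
  have hfl : ∀ x, 0 ≤ f x / L ∧ f x / L ≤ 1 := fun x =>
    ⟨div_nonneg (hr x).1 hL.le, (div_le_one hL).2 (hr x).2⟩
  refine ⟨fun x => g0 x + 4 * η * (f x / L), by fun_prop, fun x => ?_, ?_, ?_, fun x => ?_⟩
  · obtain ⟨⟨t1, t2⟩, -⟩ := hmain x
    obtain ⟨t3, t4⟩ := hfl x
    constructor <;> nlinarith
  · have : p ∈ A' := h4 (show f p ≤ a by linarith)
    simp [e0 p this, hp]
  · have : r ∈ B' := g4 (show b ≤ f r by linarith)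
    simp only [e2 r this, hrL, div_self hL.ne']
    linarith
  · obtain ⟨-, t2⟩ := hmain x
    obtain ⟨t3, t4⟩ := hfl x
    have := nu_close (s := g0 x) (t := g0 x + 4 * η * (f x / L)) ha' hb' hη.le (by nlinarith)
      (by nlinarith)
    rw [abs_le] at *
    constructor <;> linarith [this.1, this.2, t2.1, t2.2]

omit [CompactSpace X] [T2Space X] in
lemma Lift.congr {M L : ℝ} {φ ψ : ℝ → ℝ} (h : Lift X M L φ)
    (he : ∀ t, 0 ≤ t → t ≤ M → ψ t = φ t) : Lift X M L ψ := by
  intro f hf hr p r hp hrL ε hε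
  obtain ⟨g, g1, g2, g3, g4, g5⟩ := h f hf hr p r hp hrL ε hε
  exact ⟨g, g1, g2, g3, g4, fun x => by rw [he _ (g2 x).1 (g2 x).2]; exact g5 x⟩

omit [CompactSpace X] [T2Space X] in
lemma lift_id (L : ℝ) : Lift X L L id := by
  intro f hf hr p r hp hrL ε hε
  exact ⟨f, hf, hr, hp, hrL, fun x => by simpa using hε.le⟩

omit [CompactSpace X] [T2Space X] in
lemma Lift.comp {K M L : ℝ} {φ ψ : ℝ → ℝ} (h : Lift X M L φ) (hφ : Continuous φ)
    (h' : Lift X K M ψ) (hψ : ∀ t, 0 ≤ t → t ≤ K → 0 ≤ ψ t ∧ ψ t ≤ M) :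
    Lift X K L (φ ∘ ψ) := by
  intro f hf hr p r hp hrL ε hε
  obtain ⟨g, g1, g2, g3, g4, g5⟩ := h f hf hr p r hp hrL (ε / 2) (by linarith)
  have hu := (isCompact_Icc (a := (0 : ℝ)) (b := M)).uniformContinuousOn_of_continuous
    hφ.continuousOn
  rw [Metric.uniformContinuousOn_iff] at hu
  obtain ⟨δ, hδ, hδ2⟩ := hu (ε / 2) (by linarith)
  obtain ⟨k, k1, k2, k3, k4, k5⟩ := h' g g1 g2 p r g3 g4 (δ / 2) (by linarith)
  refine ⟨k, k1, k2, k3, k4, fun x => ?_⟩
  have t := hδ2 (ψ (k x)) (hψ _ (k2 x).1 (k2 x).2) (g x) (g2 x)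
    (by rw [Real.dist_eq]; linarith [k5 x])
  rw [Real.dist_eq] at t
  have t2 := g5 x
  simp only [Function.comp]
  rw [abs_le] at t2 ⊢
  rw [abs_lt] at t
  constructor <;> linarith [t.1, t.2, t2.1, t2.2]

end Pool.Agent.H490Z.PA
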