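import Pool.Agent.H490Z.PA.End
import Pool.Agent.H490Z.PA.Dim
import Pool.Agent.Helper162.Arc.PA

set_option autoImplicit false

open Set unitInterval

namespace Pool.Agent.H490Z.PA

open Pool.Agent.Helper162.Arc

/-- a metric on the pseudo-arc -/
noncomputable instance paMetric : MetricSpace PA := TopologicalSpace.metrizableSpaceMetric PA

lemma hi_PA : HI PA := by
  intro A B hA hA' hB hB' hne
  by_contra hcon
  push Not at hcon
  obtain ⟨x, hxA, hxB⟩ := hne
  refine pa_hi (C := A ∪ B) ⟨(hA.union hB).isCompact, ⟨x, Or.inl hxA⟩,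
    IsPreconnected.union x hxA hxB hA' hB'⟩ ⟨A, B, ⟨hA.isCompact, ⟨x, hxA⟩, hA'⟩,
    ⟨hB.isCompact, ⟨x, hxB⟩, hB'⟩, subset_union_left, subset_union_right, fun h => ?_,
    fun h => ?_, rfl⟩
  · exact hcon.2 (h ▸ subset_union_right)
  · exact hcon.1 (h ▸ subset_union_left)

lemma chain_PA : ∀ ε > 0, ∃ f : PA → ℝ, Continuous f ∧ (∀ x, 0 ≤ f x ∧ f x ≤ 1) ∧
    ∀ x y, f x = f y → dist x y < ε := by
  intro ε hε
  by_contra hcon
  push Not at hcon
  let S : ℕ → Set (PA × PA) := fun n => {z | z.1.1 n = z.2.1 n ∧ ε ≤ dist z.1 z.2}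
  have hcl : ∀ n, IsClosed (S n) := fun n =>
    (isClosed_eq ((continuous_coord n).comp continuous_fst)
      ((continuous_coord n).comp continuous_snd)).inter
      (isClosed_le continuous_const continuous_dist)
  obtain ⟨z, hz⟩ := IsCompact.nonempty_iInter_of_sequence_nonempty_isCompact_isClosed S
    (fun n z hz => ⟨coord_le z.1.2 z.2.2 (Nat.le_succ n) hz.1, hz.2⟩)
    (fun n => by
      obtain ⟨x, y, h1, h2⟩ := hcon (fun x => (x.1 n : ℝ)) (continuous_coordR n)
        (fun x => (x.1 n).2)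
      exact ⟨(x, y), Subtype.ext h1, h2⟩) (hcl 0).isCompact hcl
  have h1 : z.1 = z.2 := Subtype.ext (funext fun n => (mem_iInter.1 hz n).1)
  have h2 := (mem_iInter.1 hz 0).2
  rw [h1, dist_self] at h2
  linarith

lemma homog_sq (x y : PA × PA) : ∃ h : PA × PA ≃ₜ PA × PA, h x = y := by
  obtain ⟨h1, e1⟩ := homogeneous hi_PA chain_PA x.1 y.1
  obtain ⟨h2, e2⟩ := homogeneous hi_PA chain_PA x.2 y.2
  exact ⟨h1.prodCongr h2, Prod.ext e1 e2⟩

/-- interleaving of two sequences -/
def mix (a b : ℕ → I) (n : ℕ) : I := if n % 2 = 0 then a (n / 2) else b (n / 2)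

lemma mix_ev (a b : ℕ → I) : (fun n => mix a b (2 * n)) = a := by
  funext n; simp [mix]

lemma mix_od (a b : ℕ → I) : (fun n => mix a b (2 * n + 1)) = b := by
  funext n
  have e1 : (2 * n + 1) % 2 = 1 := by omega
  have e2 : (2 * n + 1) / 2 = n := by omega
  simp [mix, e1, e2]

lemma mix_self (z : ℕ → I) : mix (fun n => z (2 * n)) (fun n => z (2 * n + 1)) = z := by
  funext n
  unfold mix
  split_ifs with h
  · show z (2 * (n / 2)) = z n
    congr 1; omega
  · show z (2 * (n / 2) + 1) = z n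
    congr 1; omega

lemma continuous_mix : Continuous fun q : (ℕ → I) × (ℕ → I) => mix q.1 q.2 := by
  refine continuous_pi fun n => ?_
  unfold mix
  split_ifs <;> fun_prop

lemma shape_sq : ∃ e : PA × PA → (ℕ → unitInterval), Topology.IsEmbedding e ∧
    ∀ U : Set (ℕ → unitInterval), IsOpen U → Set.range e ⊆ U →
      ∃ V : Set (ℕ → unitInterval), IsOpen V ∧ Set.range e ⊆ V ∧
        ∃ h : V ⊆ U, (ContinuousMap.inclusion h).Nullhomotopic := by
  have hc : Continuous fun z : PA × PA => mix z.1.1 z.2.1 :=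
    continuous_mix.comp (f := fun z : PA × PA => (z.1.1, z.2.1)) (by fun_prop)
  refine ⟨fun z => mix z.1.1 z.2.1, (hc.isClosedEmbedding ?_).isEmbedding, ?_⟩
  · intro z w h
    have h' : mix z.1.1 z.2.1 = mix w.1.1 w.2.1 := h
    refine Prod.ext (Subtype.ext ?_) (Subtype.ext ?_)
    · rw [← mix_ev z.1.1 z.2.1, h', mix_ev]
    · rw [← mix_od z.1.1 z.2.1, h', mix_od]
  · refine shape_of_retracts
      (fun N => {z | (fun n => z (2 * n)) ∈ KK bond N ∧ (fun n => z (2 * n + 1)) ∈ KK bond N})
      (fun N => ((isClosed_KK bond N).preimage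
          (f := fun z : ℕ → I => fun n => z (2 * n)) (by fun_prop)).inter
        ((isClosed_KK bond N).preimage
          (f := fun z : ℕ → I => fun n => z (2 * n + 1)) (by fun_prop)))
      (fun N z hz => ⟨fun k hk => hz.1 k (by omega), fun k hk => hz.2 k (by omega)⟩) ?_
      (fun N z => mix (PP bond N fun n => z (2 * n)) (PP bond N fun n => z (2 * n + 1)))
      (fun N => ?_) (fun N z => ?_) (fun N z hz => ?_)
    · ext z
      simp only [mem_range, mem_iInter]
      constructor
      · rintro ⟨w, rfl⟩ N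
        refine ⟨?_, ?_⟩
        · show (fun n => mix w.1.1 w.2.1 (2 * n)) ∈ KK bond N
          rw [mix_ev]; exact fun k _ => w.1.2 k
        · show (fun n => mix w.1.1 w.2.1 (2 * n + 1)) ∈ KK bond N
          rw [mix_od]; exact fun k _ => w.2.2 k
      · intro h
        exact ⟨(⟨fun n => z (2 * n), fun k => (h (k + 1)).1 k (by omega)⟩,
          ⟨fun n => z (2 * n + 1), fun k => (h (k + 1)).2 k (by omega)⟩), mix_self z⟩
    · have := continuous_PP bond N
      exact continuous_mix.comp (f := fun z : ℕ → I =>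
        (PP bond N fun n => z (2 * n), PP bond N fun n => z (2 * n + 1))) (by fun_prop)
    · refine ⟨?_, ?_⟩
      · show (fun n => mix _ _ (2 * n)) ∈ KK bond N
        rw [mix_ev]; exact PP_mem bond N _
      · show (fun n => mix _ _ (2 * n + 1)) ∈ KK bond N
        rw [mix_od]; exact PP_mem bond N _
    · show mix _ _ = z
      rw [PP_fix bond N _ hz.1, PP_fix bond N _ hz.2, mix_self]

end Pool.Agent.H490Z.PA
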