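import Pool.Agent.H490Z.PA.Fold

set_option autoImplicit false

open Set

namespace Pool.Agent.H490Z.PA

/-- The piecewise linear interpolation of a walk. -/
noncomputable def WW (w : ℕ → ℤ) (m : ℕ) (t : ℝ) : ℝ :=
  w 0 + ∑ k ∈ Finset.range m, ((w (k + 1) : ℝ) - w k) * max 0 (min 1 (t - k))

lemma continuous_WW (w : ℕ → ℤ) (m : ℕ) : Continuous (WW w m) := by
  unfold WW; fun_prop

lemma WW_top (w : ℕ → ℤ) (m : ℕ) {t : ℝ} (ht : (m : ℝ) ≤ t) : WW w m t = w m := by
  induction m with
  | zero => simp [WW]
  | succ m ih =>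
    have h1 : (m : ℝ) + 1 ≤ t := by exact_mod_cast ht
    have := ih (by linarith)
    unfold WW at this ⊢
    rw [Finset.sum_range_succ, ← add_assoc, this, min_eq_left (by linarith),
      max_eq_right (by norm_num)]
    ring

lemma WW_eq (w : ℕ → ℤ) {m k : ℕ} (hk : k < m) {t : ℝ} (h1 : (k : ℝ) ≤ t) (h2 : t ≤ k + 1) :
    WW w m t = w k + (t - k) * ((w (k + 1) : ℝ) - w k) := by
  induction m with
  | zero => omega
  | succ m ih =>
    rcases Nat.lt_succ_iff_lt_or_eq.1 hk with h | h
    · have := ih h
      have h3 : (k : ℝ) + 1 ≤ m := by exact_mod_cast h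
      unfold WW at this ⊢
      rw [Finset.sum_range_succ, ← add_assoc, this, min_eq_right (by linarith),
        max_eq_left (by linarith)]
      ring
    · subst h
      have := WW_top w k h1
      unfold WW at this ⊢
      rw [Finset.sum_range_succ, ← add_assoc, this, min_eq_right (by linarith),
        max_eq_right (by linarith)]
      ring

lemma exists_cell {m : ℕ} (hm : 0 < m) {t : ℝ} (h0 : 0 ≤ t) (h1 : t ≤ m) :
    ∃ k : ℕ, k < m ∧ (k : ℝ) ≤ t ∧ t ≤ k + 1 := by
  rcases h1.lt_or_eq with h | h
  · refine ⟨⌊t⌋₊, (Nat.floor_lt h0).2 h, Nat.floor_le h0, (Nat.lt_floor_add_one t).le⟩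
  · obtain ⟨k, rfl⟩ : ∃ k, m = k + 1 := ⟨m - 1, by omega⟩
    refine ⟨k, by omega, ?_, ?_⟩ <;> push_cast at h <;> linarith

/-- a walk with steps of length one from the bottom `0` to the top `n` -/
structure IsWalk (w : ℕ → ℤ) (m : ℕ) (n : ℤ) : Prop where
  step : ∀ k < m, w (k + 1) = w k + 1 ∨ w (k + 1) = w k - 1
  zero : w 0 = 0
  last : w m = n
  range : ∀ k ≤ m, 0 ≤ w k ∧ w k ≤ n

/-- turning vertices -/
def Turn (w : ℕ → ℤ) (m i : ℕ) : Prop := 0 < i ∧ i < m ∧ w (i + 1) - w i ≠ w i - w (i - 1)

lemma lin_of_noturn {w : ℕ → ℤ} {m u v : ℕ} (hv : v ≤ m)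
    (h : ∀ i, u < i → i < v → ¬ Turn w m i) :
    ∀ e, u + e < v → w (u + e + 1) - w (u + e) = w (u + 1) - w u := by
  intro e
  induction e with
  | zero => intro _; rfl
  | succ e ih =>
    intro he
    have h1 := h (u + (e + 1)) (by omega) he
    unfold Turn at h1
    push Not at h1
    have h2 := h1 (by omega) (by omega)
    rw [h2, ← ih (by omega)]
    rfl

lemma val_of_noturn {w : ℕ → ℤ} {m u v : ℕ} (hv : v ≤ m)
    (h : ∀ i, u < i → i < v → ¬ Turn w m i) :
    ∀ e, u + e ≤ v → w (u + e) = w u + e * (w (u + 1) - w u) := by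
  intro e
  induction e with
  | zero => intro _; simp
  | succ e ih =>
    intro he
    have h1 := lin_of_noturn hv h e (by omega)
    have h2 := ih (by omega)
    have : w (u + (e + 1)) = w (u + e + 1) := rfl
    rw [this]
    push_cast
    linarith

lemma exists_fold {w : ℕ → ℤ} {m : ℕ} {n : ℤ} (hw : IsWalk w m n) (ht : ∃ i, Turn w m i) :
    ∃ a d : ℕ, 0 < d ∧ a + 3 * d ≤ m ∧ (∀ e ≤ d, w (a + d + e) = w (a + (d - e))) ∧
      ∀ e ≤ d, w (a + e + 2 * d) = w (a + e) := by
  classical
  obtain ⟨i0, hi0⟩ := ht
  have hm : 0 < m := by have := hi0.1; have := hi0.2.1; omega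
  have hfirst : w 1 - w 0 = 1 := by
    have h1 := hw.step 0 hm
    have h2 := (hw.range 1 hm).1
    have h3 := hw.zero
    simp only [zero_add] at h1
    omega
  have hlast : w (m - 1 + 1) - w (m - 1) = 1 := by
    have h1 := hw.step (m - 1) (by omega)
    have h2 := (hw.range (m - 1) (by omega)).2
    have h3 : w (m - 1 + 1) = n := by rw [Nat.sub_add_cancel hm]; exact hw.last
    omega
  have hex : ∃ d, ∃ i, 0 < d ∧ Turn w m i ∧ Turn w m (i + d) := by
    by_contra hcon
    push Not at hcon
    have huniq : ∀ i, Turn w m i → i = i0 := by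
      intro i hi
      rcases lt_trichotomy i i0 with h | h | h
      · exact absurd (show Turn w m (i + (i0 - i)) by rwa [Nat.add_sub_cancel' h.le])
          (hcon (i0 - i) i (by omega) hi)
      · exact h
      · exact absurd (show Turn w m (i0 + (i - i0)) by rwa [Nat.add_sub_cancel' h.le])
          (hcon (i - i0) i0 (by omega) hi0)
    obtain ⟨k1, k2, k3⟩ := hi0
    have a1 := lin_of_noturn (w := w) (u := 0) (v := i0) k2.le
      (fun i _ h2 hi => by have := huniq i hi; omega) (i0 - 1) (by omega)
    have a2 := lin_of_noturn (w := w) (u := i0) (v := m) le_rfl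
      (fun i h1 _ hi => by have := huniq i hi; omega) (m - 1 - i0) (by omega)
    rw [show i0 + (m - 1 - i0) = m - 1 by omega] at a2
    rw [zero_add, zero_add, Nat.sub_add_cancel k1] at a1
    omega
  obtain ⟨i, hd, hi, hj⟩ := Nat.find_spec hex
  set d := Nat.find hex with hdd
  have hmin : ∀ u v, u < v → v < u + d → Turn w m u → Turn w m v → False := by
    intro u v h1 h2 tu tv
    exact Nat.find_min hex (m := v - u) (by omega)
      ⟨u, by omega, tu, by rwa [Nat.add_sub_cancel' h1.le]⟩
  have hjm : i + d < m := hj.2.1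
  have hi0' : 0 < i := hi.1
  -- middle lap
  have nm : ∀ v, i < v → v < i + d → ¬ Turn w m v := fun v h1 h2 tv => hmin i v h1 h2 hi tv
  have mid := val_of_noturn hjm.le nm
  have midl := lin_of_noturn hjm.le nm (d - 1) (by omega)
  rw [show i + (d - 1) + 1 = i + d by omega, show i + (d - 1) = i + d - 1 by omega] at midl
  set σ := w (i + 1) - w i with hσ
  have hσ1 : σ = 1 ∨ σ = -1 := by have := hw.step i (by omega); omega
  have hl : w i - w (i - 1) = -σ := by
    have h1 := hw.step (i - 1) (by omega)
    rw [Nat.sub_add_cancel hi0'] at h1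
    have := hi.2.2
    omega
  have hr : w (i + d + 1) - w (i + d) = -σ := by
    have h1 := hw.step (i + d) hjm
    have := hj.2.2
    omega
  have hdi : d ≤ i := by
    by_contra hcon
    have nl : ∀ v, 0 < v → v < i → ¬ Turn w m v := fun v _ h2 tv =>
      hmin v i h2 (by omega) tv hi
    have b1 := lin_of_noturn (by omega : i ≤ m) nl (i - 1) (by omega)
    rw [zero_add, zero_add, Nat.sub_add_cancel hi0'] at b1
    have b2 := val_of_noturn (by omega : i ≤ m) nl i (by omega)
    rw [zero_add, zero_add, hfirst, hw.zero] at b2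
    have b3 := mid d le_rfl
    have b4 := (hw.range (i + d) hjm.le).1
    have b5 : σ = -1 := by omega
    rw [b5] at b3
    omega
  have hdm : i + d + d ≤ m := by
    by_contra hcon
    have nr : ∀ v, i + d < v → v < m → ¬ Turn w m v := fun v h1 h2 tv =>
      hmin (i + d) v h1 (by omega) hj tv
    have b1 := lin_of_noturn le_rfl nr (m - 1 - (i + d)) (by omega)
    rw [show i + d + (m - 1 - (i + d)) = m - 1 by omega] at b1
    have b2 := val_of_noturn le_rfl nr (m - (i + d)) (by omega)
    rw [show i + d + (m - (i + d)) = m by omega, hw.last, hr] at b2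
    have b3 := mid d le_rfl
    have b4 := (hw.range i (by omega)).2
    have b5 : σ = -1 := by omega
    rw [b5] at b3 b2
    omega
  obtain ⟨a, rfl⟩ : ∃ a, i = a + d := ⟨i - d, by omega⟩
  have nl : ∀ v, a < v → v < a + d → ¬ Turn w m v := fun v _ h2 tv =>
    hmin v (a + d) h2 (by omega) tv hi
  have left := val_of_noturn (by omega : a + d ≤ m) nl
  have leftl := lin_of_noturn (by omega : a + d ≤ m) nl (d - 1) (by omega)
  rw [show a + (d - 1) + 1 = a + d by omega, show a + (d - 1) = a + d - 1 by omega, hl] at leftl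
  rw [← leftl] at left
  have nr : ∀ v, a + d + d < v → v < a + d + d + d → ¬ Turn w m v := fun v h1 h2 tv =>
    hmin (a + d + d) v h1 h2 hj tv
  have right := val_of_noturn hdm nr
  rw [hr] at right
  have c1 := left d le_rfl
  have c2 := mid d le_rfl
  refine ⟨a, d, hd, by omega, fun e he => ?_, fun e he => ?_⟩
  · rw [mid e (by omega), left (d - e) (by omega), c1]
    push_cast [he]
    ring
  · rw [show a + e + 2 * d = a + d + d + e by ring, right e (by omega), left e (by omega), c2, c1]
    ring

variable {X : Type} [TopologicalSpace X] [CompactSpace X] [T2Space X]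

theorem walk_lift (hX : HI X) : ∀ (m : ℕ) (w : ℕ → ℤ) (n : ℤ), IsWalk w m n →
    Lift X m n (WW w m) := by
  intro m
  induction m using Nat.strong_induction_on with
  | _ m ih =>
  intro w n hw
  by_cases ht : ∃ i, Turn w m i
  · obtain ⟨a, d, hd, ham, s1, s2⟩ := exists_fold hw ht
    obtain ⟨m', rfl⟩ : ∃ m', m = m' + 2 * d := ⟨m - 2 * d, by omega⟩
    let w' : ℕ → ℤ := fun t => if t ≤ a + d then w t else w (t + 2 * d)
    have lo : ∀ t, t ≤ a + d → w' t = w t := fun t h => if_pos h
    have hi : ∀ t, a ≤ t → w' t = w (t + 2 * d) := by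
      intro t h
      by_cases h' : t ≤ a + d
      · rw [lo t h']
        obtain ⟨e, rfl⟩ : ∃ e, t = a + e := ⟨t - a, by omega⟩
        exact (s2 e (by omega)).symm
      · exact if_neg h'
    have hw' : IsWalk w' m' n := by
      refine ⟨fun k hk => ?_, ?_, ?_, fun k hk => ?_⟩
      · by_cases h : k + 1 ≤ a + d
        · rw [lo _ h, lo k (by omega)]
          exact hw.step k (by omega)
        · rw [hi _ (by omega), hi k (by omega), show k + 1 + 2 * d = k + 2 * d + 1 by ring]
          exact hw.step _ (by omega)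
      · rw [lo 0 (by omega)]; exact hw.zero
      · rw [hi m' (by omega)]; exact hw.last
      · by_cases h : k ≤ a + d
        · rw [lo _ h]; exact hw.range k (by omega)
        · rw [hi _ (by omega)]; exact hw.range _ (by omega)
    have hdR : (0 : ℝ) < d := by exact_mod_cast hd
    have hamR : (a : ℝ) + d ≤ m' := by exact_mod_cast (show a + d ≤ m' by omega)
    have haR : (0 : ℝ) ≤ a := Nat.cast_nonneg a
    have L1 := lift_nu hX (L := m') (a := a) (b := a + d) haR (by linarith) hamR
    have hM : ((m' + 2 * d : ℕ) : ℝ) = m' + 2 * ((a : ℝ) + d - a) := by push_cast; ring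
    rw [← hM] at L1
    have L2 := (ih m' (by omega) w' n hw').comp (continuous_WW w' m') L1 (by
      intro t h0 h1
      rw [hM] at h1
      unfold nu
      constructor <;>
      · simp only [max_def, min_def]
        split_ifs <;> linarith)
    refine L2.congr fun t h0 h1 => ?_
    obtain ⟨k, hk, k1, k2⟩ := exists_cell (by omega) h0 h1
    rw [WW_eq w hk k1 k2, Function.comp]
    by_cases c1 : k + 1 ≤ a + d
    · have c1R : (k : ℝ) + 1 ≤ a + d := by exact_mod_cast c1
      rw [nu1 (by linarith) (by linarith), WW_eq w' (show k < m' by omega) k1 k2, lo _ c1,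
        lo k (by omega)]
    · by_cases c2 : k + 1 ≤ a + 2 * d
      · obtain ⟨e, rfl⟩ : ∃ e, k = a + d + e := ⟨k - (a + d), by omega⟩
        obtain ⟨e', rfl⟩ : ∃ e', d = e + 1 + e' := ⟨d - (e + 1), by omega⟩
        have t1 := s1 e (by omega)
        have t2 := s1 (e + 1) (by omega)
        rw [show e + 1 + e' - e = e' + 1 by omega] at t1
        rw [show e + 1 + e' - (e + 1) = e' by omega] at t2
        have he' : (0 : ℝ) ≤ e' := Nat.cast_nonneg e'
        have he : (0 : ℝ) ≤ e := Nat.cast_nonneg e
        push_cast at k1 k2 ⊢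
        rw [nu2 (by linarith) (by linarith), WW_eq w' (k := a + e') (by omega)
          (by push_cast; linarith) (by push_cast; linarith), lo _ (by omega), lo _ (by omega),
          show a + (e + 1 + e') + e + 1 = a + (e + 1 + e') + (e + 1) by ring, t1, t2,
          show a + e' + 1 = a + (e' + 1) by ring]
        push_cast
        ring
      · obtain ⟨k', rfl⟩ : ∃ k', k = k' + 2 * d := ⟨k - 2 * d, by omega⟩
        have c3 : (a : ℝ) ≤ k' := by exact_mod_cast (show a ≤ k' by omega)
        push_cast at k1 k2 ⊢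
        rw [nu3 (by linarith) (by linarith), WW_eq w' (k := k') (by omega)
          (by linarith) (by linarith), hi _ (by omega), hi _ (by omega),
          show k' + 1 + 2 * d = k' + 2 * d + 1 by ring]
        ring
  · push Not at ht
    rcases Nat.eq_zero_or_pos m with rfl | hm
    · have h0 : n = 0 := by rw [← hw.last, hw.zero]
      subst h0
      have := lift_id (X := X) 0
      simp only [Nat.cast_zero, Int.cast_zero]
      refine this.congr fun t h0 h1 => ?_
      simp [WW, hw.zero, le_antisymm h1 h0]
    · have hfirst : w 1 - w 0 = 1 := by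
        have h1 := hw.step 0 hm
        have h2 := (hw.range 1 hm).1
        have h3 := hw.zero
        simp only [zero_add] at h1
        omega
      have hv : ∀ e ≤ m, w e = e := by
        intro e he
        have := val_of_noturn (w := w) (u := 0) (v := m) le_rfl (fun i _ _ => ht i) e (by omega)
        rw [zero_add, zero_add, hfirst, hw.zero] at this
        omega
      have hn : n = m := by rw [← hw.last, hv m le_rfl]
      subst hn
      have := lift_id (X := X) m
      simp only [Int.cast_natCast]
      refine this.congr fun t h0 h1 => ?_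
      obtain ⟨k, hk, k1, k2⟩ := exists_cell hm h0 h1
      rw [WW_eq w hk k1 k2, hv k hk.le, hv (k + 1) hk]
      push_cast
      simp

end Pool.Agent.H490Z.PA
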